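import Mathlib.Analysis.InnerProductSpace.Trace
import Pool.Agent.MP_29b5d3_an.h48.Upper

/-! Linear algebra for positive definite symmetric operators: compression of the inverse to a
plane, and the determinant of a rank two perturbation. -/

set_option autoImplicit false

namespace Pool.Agent.MP_29b5d3_an.h35

open Module Finset
open scoped RealInnerProductSpace

variable {E : Type*} [NormedAddCommGroup E] [InnerProductSpace ℝ E]

/-- the orthogonal projection on the plane of two orthonormal vectors -/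
noncomputable def Pj (a b : E) : E →L[ℝ] E :=
  (innerSL ℝ a).smulRight a + (innerSL ℝ b).smulRight b

theorem Pj_apply (a b x : E) : Pj a b x = ⟪a, x⟫ • a + ⟪b, x⟫ • b := rfl

/-- symmetric and bounded below by `c` -/
structure SPD (c : ℝ) (A : E →L[ℝ] E) : Prop where
  symm : ∀ x y, ⟪A x, y⟫ = ⟪x, A y⟫
  coer : ∀ x, c * ‖x‖ ^ 2 ≤ ⟪A x, x⟫

/-- the smaller eigenvalue of a symmetric two by two matrix -/
noncomputable def lo (p q r : ℝ) : ℝ := (p + q - √((p - q) ^ 2 + 4 * r ^ 2)) / 2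

/-- the larger eigenvalue of a symmetric two by two matrix -/
noncomputable def hi (p q r : ℝ) : ℝ := (p + q + √((p - q) ^ 2 + 4 * r ^ 2)) / 2

theorem lo_add_hi (p q r : ℝ) : lo p q r + hi p q r = p + q := by
  unfold lo hi
  ring

theorem lo_mul_hi (p q r : ℝ) : lo p q r * hi p q r = p * q - r ^ 2 := by
  have h := Real.sq_sqrt (show 0 ≤ (p - q) ^ 2 + 4 * r ^ 2 by positivity)
  unfold lo hi
  nlinarith

theorem lo_le_hi (p q r : ℝ) : lo p q r ≤ hi p q r := by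
  have h := Real.sqrt_nonneg ((p - q) ^ 2 + 4 * r ^ 2)
  unfold lo hi
  linarith

theorem le_lo {p q r t : ℝ}
    (h : ∀ α β : ℝ, t * (α ^ 2 + β ^ 2) ≤ p * α ^ 2 + 2 * r * α * β + q * β ^ 2) :
    t ≤ lo p q r := by
  have h1 := h 1 0
  have h2 := h 0 1
  have h3 := discrim_le_zero (a := p - t) (b := 2 * r) (c := q - t) fun x => by
    have := h x 1
    nlinarith
  rw [discrim] at h3
  have h4 : √((p - q) ^ 2 + 4 * r ^ 2) ≤ p + q - 2 * t :=
    Real.sqrt_le_iff.2 ⟨by nlinarith, by nlinarith⟩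
  unfold lo
  linarith

/-- the smaller eigenvalue of the compression of the inverse to the plane of `a` and `b` -/
noncomputable def b1 (a b : E) (A : E →L[ℝ] E) : ℝ :=
  lo ⟪a, A.inverse a⟫ ⟪b, A.inverse b⟫ ⟪a, A.inverse b⟫

/-- the larger eigenvalue of the compression of the inverse to the plane of `a` and `b` -/
noncomputable def b2 (a b : E) (A : E →L[ℝ] E) : ℝ :=
  hi ⟪a, A.inverse a⟫ ⟪b, A.inverse b⟫ ⟪a, A.inverse b⟫

theorem b1_le_b2 (a b : E) (A : E →L[ℝ] E) : b1 a b A ≤ b2 a b A := lo_le_hi _ _ _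

theorem esym {ι : Type*} {s : Finset ι} (hs : s.Nonempty) {x : ι → ℝ} (hx : ∀ i, 1 ≤ x i) :
    1 ≤ ∏ i ∈ s, x i ∧ ∑ i ∈ s, x i ≤ ∏ i ∈ s, x i + (#s - 1) ∧
      (∑ i ∈ s, x i) ^ 2 - ∑ i ∈ s, x i ^ 2 ≤
        2 * (#s - 1) * ∏ i ∈ s, x i + (#s - 1) * (#s - 2) := by
  induction hs using Finset.Nonempty.cons_induction with
  | singleton a => simp [hx a]
  | cons a s ha hs ih =>
    obtain ⟨i1, i2, i3⟩ := ih
    have k1 : (1 : ℝ) ≤ #s := by exact_mod_cast hs.card_pos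
    have h := hx a
    rw [prod_cons, sum_cons, sum_cons, card_cons]
    push_cast
    have p1 := mul_nonneg (sub_nonneg.2 h) (sub_nonneg.2 i1)
    have p2 := mul_nonneg (sub_nonneg.2 k1) p1
    have p3 := mul_le_mul_of_nonneg_left i2 (show 0 ≤ x a by linarith)
    refine ⟨by nlinarith, by nlinarith, by nlinarith⟩

variable [FiniteDimensional ℝ E]

theorem det_rank_two (a b u v : E) :
    (ContinuousLinearMap.id ℝ E + ((innerSL ℝ a).smulRight u + (innerSL ℝ b).smulRight v)).det =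
      (1 + ⟪a, u⟫) * (1 + ⟪b, v⟫) - ⟪a, v⟫ * ⟪b, u⟫ := by
  classical
  set w := stdOrthonormalBasis ℝ E
  let P : Matrix (Fin (finrank ℝ E)) (Fin 2) ℝ := Matrix.of fun i k => ⟪w i, ![u, v] k⟫
  let Q : Matrix (Fin 2) (Fin (finrank ℝ E)) ℝ := Matrix.of fun k i => ⟪![a, b] k, w i⟫
  have h : LinearMap.toMatrix w.toBasis w.toBasis ((ContinuousLinearMap.id ℝ E +
      ((innerSL ℝ a).smulRight u + (innerSL ℝ b).smulRight v) : E →L[ℝ] E) : E →ₗ[ℝ] E) =
      1 + P * Q := by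
    ext i j
    simp [LinearMap.toMatrix_apply, P, Q, Matrix.mul_apply, Matrix.one_apply,
      OrthonormalBasis.repr_apply_apply, mul_comm]
  have e : ∀ k l, (Q * P) k l = ⟪![a, b] k, ![u, v] l⟫ := fun k l => by
    simp only [Matrix.mul_apply, P, Q, Matrix.of_apply]
    exact w.sum_inner_mul_inner _ _
  rw [ContinuousLinearMap.det, ← LinearMap.det_toMatrix w.toBasis, h, Matrix.det_one_add_mul_comm,
    Matrix.det_fin_two]
  simp [e]

theorem spec {n : ℕ} (hn : finrank ℝ E = n) {A : E →L[ℝ] E} (h : ∀ x y, ⟪A x, y⟫ = ⟪x, A y⟫) :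
    ∃ (u : OrthonormalBasis (Fin n) ℝ E) (l : Fin n → ℝ), (∀ i, A (u i) = l i • u i) ∧
      A.det = ∏ i, l i := by
  have hs : (A : E →ₗ[ℝ] E).IsSymmetric := h
  exact ⟨hs.eigenvectorBasis hn, hs.eigenvalues hn, hs.apply_eigenvectorBasis hn,
    hs.det_eq_prod_eigenvalues hn⟩

omit [FiniteDimensional ℝ E] in
theorem eig_inner {A : E →L[ℝ] E} {u : E} {l : ℝ} (hu : ‖u‖ = 1) (h : A u = l • u) :
    ⟪A u, u⟫ = l := by
  rw [h, real_inner_smul_left, real_inner_self_eq_norm_sq, hu]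
  ring

omit [FiniteDimensional ℝ E] in
theorem form_le (A : E →L[ℝ] E) (x : E) : ⟪A x, x⟫ ≤ ‖A‖ * ‖x‖ ^ 2 :=
  (real_inner_le_norm _ _).trans (by
    rw [sq, ← mul_assoc]
    gcongr
    exact A.le_opNorm x)

variable {c : ℝ} {A : E →L[ℝ] E}

theorem SPD.spec {n : ℕ} (hn : finrank ℝ E = n) (h : SPD c A) :
    ∃ (u : OrthonormalBasis (Fin n) ℝ E) (l : Fin n → ℝ), (∀ i, A (u i) = l i • u i) ∧
      A.det = ∏ i, l i ∧ ∀ i, c ≤ l i ∧ l i ≤ ‖A‖ := by
  obtain ⟨u, l, h1, h2⟩ := h35.spec hn h.symm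
  refine ⟨u, l, h1, h2, fun i => ?_⟩
  have k1 := h.coer (u i)
  have k2 := form_le A (u i)
  rw [eig_inner (u.orthonormal.1 i) (h1 i), u.orthonormal.1 i] at k1 k2
  exact ⟨by linarith, by linarith⟩

theorem SPD.det_pos (hc : 0 < c) (h : SPD c A) : 0 < A.det := by
  obtain ⟨u, l, -, h2, h3⟩ := h.spec rfl
  rw [h2]
  exact prod_pos fun i _ => hc.trans_le (h3 i).1

theorem SPD.apply_inv (hc : 0 < c) (h : SPD c A) (y : E) : A (A.inverse y) = y :=
  h48.apply_inverse (h.det_pos hc).ne' y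

theorem SPD.inv_symm (hc : 0 < c) (h : SPD c A) (x y : E) :
    ⟪A.inverse x, y⟫ = ⟪x, A.inverse y⟫ := by
  conv_lhs => rw [← h.apply_inv hc y, ← h.symm, h.apply_inv hc]

theorem SPD.inv_eig (hc : 0 < c) (h : SPD c A) {u : E} {l : ℝ} (hl : 0 < l) (e : A u = l • u) :
    A.inverse u = l⁻¹ • u := by
  have k := h.coer (A.inverse u - l⁻¹ • u)
  rw [map_sub, h.apply_inv hc, map_smul, e, smul_smul, inv_mul_cancel₀ hl.ne', one_smul, sub_self,
    inner_zero_left] at k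
  have k2 : ‖A.inverse u - l⁻¹ • u‖ ^ 2 ≤ 0 := by
    by_contra k3
    nlinarith
  exact sub_eq_zero.1 (norm_eq_zero.1 (pow_eq_zero_iff two_ne_zero |>.1
    (le_antisymm k2 (sq_nonneg _))))

theorem SPD.legendre (hc : 0 < c) (h : SPD c A) (ζ z : E) :
    2 * ⟪ζ, z⟫ - ⟪A z, z⟫ ≤ ⟪ζ, A.inverse ζ⟫ := by
  have k := h.coer (z - A.inverse ζ)
  rw [map_sub, h.apply_inv hc, inner_sub_left, inner_sub_right, inner_sub_right,
    h.symm z (A.inverse ζ), h.apply_inv hc, real_inner_comm ζ z] at k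
  nlinarith [sq_nonneg ‖z - A.inverse ζ‖]

theorem SPD.le_b1 (hc : 0 < c) (h : SPD c A) {a b : E} (ha : ‖a‖ = 1) (hb : ‖b‖ = 1)
    (hab : ⟪a, b⟫ = 0) {t : ℝ}
    (ht : ∀ α β : ℝ, t * ‖α • a + β • b‖ ^ 2 ≤ ⟪α • a + β • b, A.inverse (α • a + β • b)⟫) :
    t ≤ b1 a b A := by
  refine le_lo fun α β => ?_
  have k := ht α β
  have e : ⟪b, A.inverse a⟫ = ⟪a, A.inverse b⟫ := by rw [real_inner_comm, h.inv_symm hc]
  rw [norm_add_sq_real, norm_smul, norm_smul, ha, hb, map_add, map_smul, map_smul] at k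
  simp only [inner_add_left, inner_add_right, real_inner_smul_left, real_inner_smul_right, hab, e,
    Real.norm_eq_abs, mul_one, sq_abs] at k
  linarith

omit [FiniteDimensional ℝ E] in
theorem SPD.norm_pos [Nontrivial E] (hc : 0 < c) (h : SPD c A) : 0 < ‖A‖ := by
  obtain ⟨x, hx⟩ := exists_ne (0 : E)
  have k := (h.coer x).trans (form_le A x)
  have : 0 < ‖x‖ ^ 2 := by positivity
  nlinarith

theorem SPD.inv_norm_le_b1 (hc : 0 < c) (h : SPD c A) {a b : E} (ha : ‖a‖ = 1) (hb : ‖b‖ = 1)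
    (hab : ⟪a, b⟫ = 0) : 0 < ‖A‖ ∧ ‖A‖⁻¹ ≤ b1 a b A := by
  have : Nontrivial E := ⟨⟨a, 0, fun e => by simp [e] at ha⟩⟩
  have m0 := h.norm_pos hc
  refine ⟨m0, h.le_b1 hc ha hb hab fun α β => ?_⟩
  generalize α • a + β • b = ζ
  refine le_trans ?_ (h.legendre hc ζ (‖A‖⁻¹ • ζ))
  have k := form_le A (‖A‖⁻¹ • ζ)
  rw [norm_smul, norm_inv, norm_norm] at k
  rw [real_inner_smul_right, real_inner_self_eq_norm_sq]
  have e : ‖A‖ * (‖A‖⁻¹ * ‖ζ‖) ^ 2 = ‖A‖⁻¹ * ‖ζ‖ ^ 2 := by field_simp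
  linarith

theorem SPD.det_sub (hc : 0 < c) (h : SPD c A) (a b : E) (s : ℝ) :
    (A - s • Pj a b).det = A.det * ((1 - s * b1 a b A) * (1 - s * b2 a b A)) := by
  have e : A - s • Pj a b = A.comp (ContinuousLinearMap.id ℝ E +
      ((innerSL ℝ a).smulRight (-s • A.inverse a) + (innerSL ℝ b).smulRight (-s • A.inverse b))) := by
    ext x
    simp only [ContinuousLinearMap.comp_apply, add_apply, sub_apply, smul_apply, Pj_apply,
      ContinuousLinearMap.id_apply, ContinuousLinearMap.smulRight_apply, innerSL_apply_apply,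
      map_add, map_smul, h.apply_inv hc]
    module
  have e2 : ⟪b, A.inverse a⟫ = ⟪a, A.inverse b⟫ := by rw [real_inner_comm, h.inv_symm hc]
  have d := det_rank_two a b (-s • A.inverse a) (-s • A.inverse b)
  rw [e, ContinuousLinearMap.det, ContinuousLinearMap.toLinearMap_comp, LinearMap.det_comp]
  congr 1
  refine d.trans ?_
  have k1 := lo_add_hi ⟪a, A.inverse a⟫ ⟪b, A.inverse b⟫ ⟪a, A.inverse b⟫
  have k2 := lo_mul_hi ⟪a, A.inverse a⟫ ⟪b, A.inverse b⟫ ⟪a, A.inverse b⟫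
  simp only [real_inner_smul_right, e2, b1, b2]
  linear_combination s * k1 - s ^ 2 * k2

omit [FiniteDimensional ℝ E] in
theorem trace_eq {ι κ : Type*} [Fintype ι] [Fintype κ] (e : OrthonormalBasis ι ℝ E)
    (u : OrthonormalBasis κ ℝ E) (T : E →L[ℝ] E) : ∑ i, ⟪e i, T (e i)⟫ = ∑ k, ⟪u k, T (u k)⟫ :=
  (LinearMap.trace_eq_sum_inner (T : E →ₗ[ℝ] E) e).symm.trans
    (LinearMap.trace_eq_sum_inner (T : E →ₗ[ℝ] E) u)

theorem SPD.sum_b {n : ℕ} (hn : finrank ℝ E = n) (h1 : 1 ≤ n) (hc : 0 < c) (h : SPD c A)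
    (e : OrthonormalBasis (Fin n) ℝ E) :
    A.det * (∑ i, ∑ j, b1 (e i) (e j) A * b2 (e i) (e j) A) * ‖A‖ ^ 2 ≤
      2 * (n - 1) * ‖A‖ ^ n + (n - 1) * (n - 2) * A.det := by
  obtain ⟨u, l, u1, u2, u3⟩ := h.spec hn
  have l0 : ∀ i, 0 < l i := fun i => hc.trans_le (u3 i).1
  have i1 : ∀ i, A.inverse (u i) = (l i)⁻¹ • u i := fun i => h.inv_eig hc (l0 i) (u1 i)
  have n1 : ∀ i, ⟪u i, u i⟫ = 1 := fun i => by
    rw [real_inner_self_eq_norm_sq, u.orthonormal.1 i, one_pow]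
  have t1 : ∑ i, ⟪e i, A.inverse (e i)⟫ = ∑ i, (l i)⁻¹ := by
    rw [trace_eq e u]
    exact sum_congr rfl fun i _ => by rw [i1, real_inner_smul_right, n1, mul_one]
  have t2 : ∑ i, ∑ j, ⟪e i, A.inverse (e j)⟫ ^ 2 = ∑ i, (l i)⁻¹ ^ 2 := by
    rw [sum_comm]
    have := trace_eq e u (A.inverse.comp A.inverse)
    simp only [ContinuousLinearMap.comp_apply, i1, map_smul, real_inner_smul_right, n1] at this
    rw [show ∑ i, (l i)⁻¹ ^ 2 = ∑ i, (l i)⁻¹ * ((l i)⁻¹ * 1) from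
      sum_congr rfl fun i _ => by ring, ← this]
    exact sum_congr rfl fun j _ => by
      rw [e.sum_sq_inner_right, ← h.inv_symm hc, real_inner_self_eq_norm_sq]
  have t3 : ∑ i, ∑ j, b1 (e i) (e j) A * b2 (e i) (e j) A =
      (∑ i, (l i)⁻¹) ^ 2 - ∑ i, (l i)⁻¹ ^ 2 := by
    simp only [b1, b2, lo_mul_hi, sum_sub_distrib]
    rw [t2, ← t1, sq, sum_mul_sum]
  have : Nonempty (Fin n) := ⟨⟨0, h1⟩⟩
  obtain ⟨-, -, k⟩ := esym (s := (univ : Finset (Fin n))) univ_nonempty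
    (x := fun i => ‖A‖ * (l i)⁻¹) fun i => by
      rw [← div_eq_mul_inv, one_le_div (l0 i)]
      exact (u3 i).2
  have D0 := h.det_pos hc
  rw [← mul_sum, prod_mul_distrib, prod_const, prod_inv_distrib, ← u2, card_univ,
    Fintype.card_fin] at k
  simp only [mul_pow] at k
  rw [← mul_sum] at k
  have k2 := mul_le_mul_of_nonneg_left k D0.le
  have e3 : A.det * (‖A‖ ^ n * A.det⁻¹) = ‖A‖ ^ n := by field_simp
  rw [t3]
  nlinarith

theorem SPD.continuous_b {X : Type*} [TopologicalSpace X] {A : X → E →L[ℝ] E} (hc : 0 < c)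
    (h : ∀ x, SPD c (A x)) (hA : Continuous A) (a b : E) :
    Continuous (fun x => b1 a b (A x)) ∧ Continuous fun x => b2 a b (A x) := by
  have : CompleteSpace E := FiniteDimensional.complete ℝ E
  have k : Continuous fun x => (A x).inverse := continuous_iff_continuousAt.2 fun x => by
    have i : (A x).IsInvertible :=
      ⟨(A x).toContinuousLinearEquivOfDetNeZero ((h x).det_pos hc).ne', by simp⟩
    exact (i.contDiffAt_map_inverse (n := 0)).continuousAt.comp hA.continuousAt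
  have k2 : ∀ v w : E, Continuous fun x => ⟪v, (A x).inverse w⟫ := fun v w =>
    continuous_const.inner (k.clm_apply continuous_const)
  have := k2 a a
  have := k2 b b
  have := k2 a b
  unfold b1 b2 lo hi
  exact ⟨by fun_prop, by fun_prop⟩

end Pool.Agent.MP_29b5d3_an.h35
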