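import Mathlib.Combinatorics.SimpleGraph.Basic
import Mathlib.MeasureTheory.Function.L2Space
import Mathlib.MeasureTheory.Integral.CurveIntegral.Poincare
import Pool.Agent.MP_29b5d3_an.h35.Lin

-- ======== part 0: formerly Pool.Agent.MP_29b5d3_an.h35.Saddle
section MrgPart0

/-! A minimax critical point of `U - s ‖P x‖ ^ 2 / 2 - ⟪y, x⟫` for a uniformly convex `U`. -/

set_option autoImplicit false

namespace Pool.Agent.MP_29b5d3_an.h35

open Module Set Metric Filter Topology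
open scoped RealInnerProductSpace

theorem mono01 {φ ψ : ℝ → ℝ} (h : ∀ t, HasDerivAt φ (ψ t) t) (h0 : ∀ t ∈ Icc (0 : ℝ) 1, 0 ≤ ψ t)
    {t : ℝ} (ht : t ∈ Icc (0 : ℝ) 1) : φ 0 ≤ φ t :=
  monotoneOn_of_deriv_nonneg (convex_Icc 0 1)
    (fun x _ => (h x).continuousAt.continuousWithinAt)
    (fun x _ => (h x).differentiableAt.differentiableWithinAt)
    (fun x hx => by rw [(h x).deriv]; exact h0 x (interior_subset hx))
    ⟨le_rfl, zero_le_one⟩ ht ht.1

theorem quad_bdd {α : ℝ} (hα : 0 < α) (β γ : ℝ) :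
    ∃ ρ : ℝ, ∀ t : ℝ, α * t ^ 2 ≤ β * t + γ → t ≤ ρ := by
  refine ⟨max 1 ((|β| + |γ|) / α), fun t ht => ?_⟩
  by_contra h
  rw [not_le, max_lt_iff, div_lt_iff₀ hα] at h
  have h1 := le_abs_self β
  have h2 := le_abs_self γ
  have h3 := abs_nonneg γ
  nlinarith [mul_lt_mul_of_pos_right h.2 (show 0 < t by linarith [h.1]),
    mul_le_mul_of_nonneg_right h1 (show 0 ≤ t by linarith [h.1]),
    mul_le_mul_of_nonneg_left h.1.le h3]

variable {E : Type*} [NormedAddCommGroup E] [InnerProductSpace ℝ E]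

/-- a uniformly convex potential that is quadratic outside a ball -/
structure Pot (c M R : ℝ) (U : E → ℝ) (g : E → E) (A : E → E →L[ℝ] E) : Prop where
  dU : ∀ x, HasFDerivAt U (innerSL ℝ (g x)) x
  dg : ∀ x, HasFDerivAt g (A x) x
  cont : Continuous A
  spd : ∀ x, SPD c (A x)
  bdd : ∃ C, ∀ x, |U x - M / 2 * ‖x‖ ^ 2| ≤ C
  out : ∀ x, R ≤ ‖x‖ → g x = M • x ∧ A x = M • ContinuousLinearMap.id ℝ E

variable {c M R : ℝ} {U : E → ℝ} {g : E → E} {A : E → E →L[ℝ] E}

theorem Pot.taylor (H : Pot c M R U g A) {x h : E} {γ : ℝ}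
    (hγ : ∀ t ∈ Icc (0 : ℝ) 1, γ ≤ ⟪A (x + t • h) h, h⟫) :
    U x + ⟪g x, h⟫ + γ / 2 ≤ U (x + h) := by
  have l : ∀ t : ℝ, HasDerivAt (fun t : ℝ => x + t • h) h t := fun t => by
    simpa using ((hasDerivAt_id t).smul_const h).const_add x
  have d1 : ∀ t : ℝ, HasDerivAt (fun t : ℝ => ⟪g (x + t • h), h⟫ - γ * t)
      (⟪A (x + t • h) h, h⟫ - γ) t := fun t => by
    refine ((((H.dg _).comp_hasDerivAt t (l t)).inner ℝ (hasDerivAt_const t h)).fun_sub
      ((hasDerivAt_id t).const_mul γ)).congr_deriv ?_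
    simp
  have d2 : ∀ t : ℝ, HasDerivAt (fun t : ℝ => U (x + t • h) - ⟪g x, h⟫ * t - γ / 2 * t ^ 2)
      (⟪g (x + t • h), h⟫ - γ * t - ⟪g x, h⟫) t := fun t => by
    refine ((((H.dU _).comp_hasDerivAt t (l t)).fun_sub
      ((hasDerivAt_id t).const_mul ⟪g x, h⟫)).fun_sub
      (((hasDerivAt_id t).pow 2).const_mul (γ / 2))).congr_deriv ?_
    simp
    ring
  have k := mono01 d2 (fun t ht => by
    have := mono01 d1 (fun t ht => sub_nonneg.2 (hγ t ht)) ht
    simp only [zero_smul, add_zero, mul_zero, sub_zero] at this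
    linarith) ⟨zero_le_one, le_rfl⟩
  simp only [zero_smul, add_zero, one_smul] at k
  linarith

variable [FiniteDimensional ℝ E]

theorem Pot.saddle (H : Pot c M R U g A) (hc : 0 < c) (hM : 0 < M) {P : E →L[ℝ] E}
    (P1 : ∀ x y, ⟪P x, y⟫ = ⟪x, P y⟫) (P2 : ∀ x, P (P x) = P x) {s : ℝ} (hs : M < s) (y : E) :
    ∃ x, g x - s • P x = y ∧ ∀ ζ, P ζ = ζ → s⁻¹ * ‖ζ‖ ^ 2 ≤ ⟪ζ, (A x).inverse ζ⟫ := by
  have s0 : 0 < s := hM.trans hs
  have P3 : ∀ x, ‖P x‖ ≤ ‖x‖ := fun x => by
    have k := real_inner_le_norm x (P x)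
    rw [← P2 x, ← P1, real_inner_self_eq_norm_sq, P2] at k
    nlinarith [norm_nonneg x, norm_nonneg (P x)]
  set v : E → ℝ := fun x => U x - s / 2 * ‖P x‖ ^ 2 - ⟪y, x⟫ with hv
  set r : E → E := fun x => g x - s • P x - y with hr
  have dv : ∀ x, HasFDerivAt v (innerSL ℝ (r x)) x := fun x => by
    refine (((H.dU x).sub ((P.hasFDerivAt (x := x)).norm_sq.const_mul (s / 2))).sub
      (innerSL ℝ y).hasFDerivAt).congr_fderiv ?_
    ext w
    simp only [hr, sub_apply, smul_apply, ContinuousLinearMap.comp_apply, innerSL_apply_apply,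
      inner_sub_left, real_inner_smul_left, ← P1, P2, smul_eq_mul, nsmul_eq_mul]
    push_cast
    ring
  have cv : Continuous v := continuous_iff_continuousAt.2 fun x => (dv x).continuousAt
  have ex : ∀ x h γ, (∀ t ∈ Icc (0 : ℝ) 1, γ ≤ ⟪A (x + t • h) h, h⟫) →
      v x + ⟪r x, h⟫ + γ / 2 - s / 2 * ‖P h‖ ^ 2 ≤ v (x + h) := fun x h γ hγ => by
    have k := H.taylor hγ
    simp only [hv, hr, map_add, norm_add_sq_real, inner_add_right, inner_sub_left,
      real_inner_smul_left, ← P1, P2]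
    linarith
  have ex1 : ∀ x h, v x + ⟪r x, h⟫ + c * ‖h‖ ^ 2 / 2 - s / 2 * ‖P h‖ ^ 2 ≤ v (x + h) :=
    fun x h => ex x h _ fun t _ => (H.spd _).coer h
  set Z : Set E := {x | ∀ η, P η = 0 → v x ≤ v (x + η)} with hZ
  have Zc : IsClosed Z := by
    simp only [hZ, ofPred_forall]
    exact isClosed_iInter fun η => isClosed_iInter fun _ => isClosed_le cv (by fun_prop)
  have Z1 : ∀ x, ∃ η, P η = 0 ∧ x + η ∈ Z := fun x => by
    have k1 : IsCompact (closedBall (0 : E) (2 * ‖r x‖ / c) ∩ {η | P η = 0}) :=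
      (isCompact_closedBall _ _).inter_right (isClosed_eq P.continuous continuous_const)
    have k0 : (0 : E) ∈ closedBall (0 : E) (2 * ‖r x‖ / c) ∩ {η | P η = 0} :=
      ⟨mem_closedBall_self (by positivity), map_zero P⟩
    obtain ⟨η, h1, h2⟩ := k1.exists_isMinOn ⟨0, k0⟩ (f := fun η => v (x + η)) (by fun_prop)
    refine ⟨η, h1.2, fun η' h3 => ?_⟩
    have h4 : P (η + η') = 0 := by rw [map_add, h1.2, h3, add_zero]
    rw [add_assoc]
    generalize η + η' = w at h4
    rcases le_or_gt ‖w‖ (2 * ‖r x‖ / c) with h5 | h5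
    · exact h2 ⟨mem_closedBall_zero_iff.2 h5, h4⟩
    · have h6 : v (x + η) ≤ v (x + 0) := h2 k0
      have h7 := ex1 x w
      have h8 := abs_le.1 (abs_real_inner_le_norm (r x) w)
      rw [div_lt_iff₀ hc] at h5
      rw [add_zero] at h6
      rw [h4, norm_zero] at h7
      nlinarith [norm_nonneg w]
  obtain ⟨C, hC⟩ := H.bdd
  obtain ⟨η0, -, z0⟩ := Z1 0
  generalize 0 + η0 = z at z0
  obtain ⟨ρ1, h1⟩ := quad_bdd (show 0 < (s - M) / 2 by linarith) ‖y‖ (C - v z)
  obtain ⟨ρ2, h2⟩ := quad_bdd (show 0 < M / 2 by linarith) ‖y‖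
    (M / 2 * ρ1 ^ 2 + 2 * C + ‖y‖ * ρ1)
  have Sc : IsCompact (Z ∩ {x | v z ≤ v x}) := by
    refine (isCompact_closedBall (0 : E) ρ2).of_isClosed_subset
      (Zc.inter (isClosed_le continuous_const cv)) fun x hx => mem_closedBall_zero_iff.2 ?_
    have k1 := hx.1 (P x - x) (by rw [map_sub, P2, sub_self])
    have k2 : v z ≤ v x := hx.2
    rw [add_sub_cancel] at k1
    have k3 := abs_le.1 (hC (P x))
    have k4 := abs_le.1 (hC x)
    have k5 := abs_le.1 (abs_real_inner_le_norm y (P x))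
    have k6 := abs_le.1 (abs_real_inner_le_norm y x)
    have k7 : v (P x) = U (P x) - s / 2 * ‖P x‖ ^ 2 - ⟪y, P x⟫ := by simp only [hv, P2]
    have k8 : v x = U x - s / 2 * ‖P x‖ ^ 2 - ⟪y, x⟫ := rfl
    have k9 := h1 ‖P x‖ (by linarith)
    have k10 : ‖P x‖ ^ 2 ≤ ρ1 ^ 2 := by gcongr
    have k11 : ‖y‖ * ‖P x‖ ≤ ‖y‖ * ρ1 := by gcongr
    exact h2 _ (by nlinarith)
  obtain ⟨x, hx, hmax⟩ := Sc.exists_isMaxOn ⟨z, z0, le_refl (v z)⟩ cv.continuousOn
  have mx : ∀ w ∈ Z, v w ≤ v x := fun w hw => by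
    rcases le_or_gt (v z) (v w) with k | k
    · exact hmax ⟨hw, k⟩
    · exact k.le.trans hx.2
  have r1 : ∀ η, P η = 0 → ⟪r x, η⟫ = 0 := fun η hη => by
    have l : HasDerivAt (fun t : ℝ => x + t • η) η 0 := by
      simpa using ((hasDerivAt_id (0 : ℝ)).smul_const η).const_add x
    have d := (dv (x + (0 : ℝ) • η)).comp_hasDerivAt 0 l
    have m : IsLocalMin (v ∘ fun t : ℝ => x + t • η) 0 := Eventually.of_forall fun t => by
      simpa using hx.1 (t • η) (by rw [map_smul, hη, smul_zero])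
    simpa using m.hasDerivAt_eq_zero d
  have r2 : ∀ a, ∃ η, P η = 0 ∧ v (x + (a + η)) ≤ v x := fun a => by
    obtain ⟨η, k1, k2⟩ := Z1 (x + a)
    exact ⟨η, k1, add_assoc x a η ▸ mx _ k2⟩
  have r0 : r x = 0 := by
    obtain ⟨η, k1, k2⟩ := r2 (s⁻¹ • r x)
    have k3 := ex1 x (s⁻¹ • r x + η)
    rw [inner_add_right, r1 η k1, map_add, k1, add_zero, add_zero, map_smul, norm_smul,
      real_inner_smul_right, real_inner_self_eq_norm_sq, Real.norm_of_nonneg (by positivity)] at k3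
    have k4 : ‖P (r x)‖ ^ 2 ≤ ‖r x‖ ^ 2 := by gcongr; exact P3 _
    have k5 : s / 2 * (s⁻¹ * ‖P (r x)‖) ^ 2 = s⁻¹ / 2 * ‖P (r x)‖ ^ 2 := by field_simp
    have k6 : 0 ≤ c * ‖s⁻¹ • r x + η‖ ^ 2 := by positivity
    have k7 : 0 < s⁻¹ := by positivity
    have k8 : ‖r x‖ ^ 2 ≤ 0 := by nlinarith
    exact norm_eq_zero.1 (pow_eq_zero_iff two_ne_zero |>.1 (le_antisymm k8 (sq_nonneg _)))
  refine ⟨x, sub_eq_zero.1 r0, fun ζ hζ => le_of_forall_pos_le_add fun ε' ε0' => ?_⟩
  obtain ⟨ε, ε0, hε⟩ : ∃ ε : ℝ, 0 < ε ∧ ε * ‖ζ‖ ^ 2 ≤ ε' * (c * s) :=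
    ⟨ε' * (c * s) / (‖ζ‖ ^ 2 + 1), by positivity, by
      rw [div_mul_eq_mul_div, div_le_iff₀ (by positivity)]
      have : 0 < ε' * (c * s) := by positivity
      nlinarith⟩
  obtain ⟨δ, δ0, hδ⟩ := Metric.continuousAt_iff.1 (H.cont.continuousAt (x := x)) ε ε0
  have ev : ∀ᶠ τ : ℝ in 𝓝 0, s * (τ * ‖ζ‖) ^ 2 < c * δ ^ 2 :=
    ((by fun_prop : Continuous fun τ : ℝ => s * (τ * ‖ζ‖) ^ 2).tendsto' 0 0 (by simp)).eventually
      (gt_mem_nhds (by positivity))
  obtain ⟨τ, t1, t0⟩ := ((ev.filter_mono (nhdsWithin_le_nhds (s := Ioi 0))).and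
    self_mem_nhdsWithin).exists
  have τ0 : 0 < τ := t0
  obtain ⟨η, k1, k2⟩ := r2 (τ • ζ)
  have k3 : ‖P (τ • ζ + η)‖ = τ * ‖ζ‖ := by
    rw [map_add, k1, add_zero, map_smul, hζ, norm_smul, Real.norm_of_nonneg τ0.le]
  have k4 : ⟪ζ, τ • ζ + η⟫ = τ * ‖ζ‖ ^ 2 := by
    rw [inner_add_right, real_inner_smul_right, real_inner_self_eq_norm_sq, ← hζ, P1, k1,
      inner_zero_right, add_zero]
  generalize τ • ζ + η = h at k2 k3 k4
  have k5 := ex1 x h
  rw [r0, inner_zero_left, k3] at k5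
  have k6 : c * ‖h‖ ^ 2 ≤ s * (τ * ‖ζ‖) ^ 2 := by linarith
  have k7 : ‖h‖ < δ := by
    refine lt_of_pow_lt_pow_left₀ 2 δ0.le ?_
    exact lt_of_mul_lt_mul_left (k6.trans_lt t1) hc.le
  have k8 := ex x h (⟪A x h, h⟫ - ε * ‖h‖ ^ 2) fun t ht => by
    have a1 : dist (x + t • h) x < δ := by
      rw [dist_eq_norm, add_sub_cancel_left, norm_smul, Real.norm_of_nonneg ht.1]
      nlinarith [ht.2, norm_nonneg h]
    have a2 := hδ a1
    rw [dist_comm, dist_eq_norm] at a2
    have a3 := form_le (A x - A (x + t • h)) h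
    rw [sub_apply, inner_sub_left] at a3
    nlinarith [sq_nonneg ‖h‖]
  rw [r0, inner_zero_left, k3] at k8
  have k9 := (H.spd x).legendre hc ζ ((s * τ)⁻¹ • h)
  rw [map_smul, real_inner_smul_right, real_inner_smul_right, real_inner_smul_left, k4] at k9
  have k10 : ε * ‖h‖ ^ 2 ≤ ε' * (s * τ) ^ 2 := by
    refine le_of_mul_le_mul_left ?_ hc
    nlinarith [mul_le_mul_of_nonneg_left k6 ε0.le,
      mul_le_mul_of_nonneg_left hε (show 0 ≤ s * τ ^ 2 by positivity)]
  have k11 : (s * τ)⁻¹ * ((s * τ)⁻¹ * ⟪A x h, h⟫) ≤ s⁻¹ * ‖ζ‖ ^ 2 + ε' := by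
    rw [inv_mul_le_iff₀ (by positivity), inv_mul_le_iff₀ (by positivity)]
    have e : s * τ * (s * τ * (s⁻¹ * ‖ζ‖ ^ 2 + ε')) = s * (τ * ‖ζ‖) ^ 2 + ε' * (s * τ) ^ 2 := by
      field_simp
    linarith
  have k12 : (s * τ)⁻¹ * (τ * ‖ζ‖ ^ 2) = s⁻¹ * ‖ζ‖ ^ 2 := by field_simp
  linarith

omit [FiniteDimensional ℝ E] in
theorem Pj_fix {a b : E} (ha : ‖a‖ = 1) (hb : ‖b‖ = 1) (hab : ⟪a, b⟫ = 0) (α β : ℝ) :
    Pj a b (α • a + β • b) = α • a + β • b := by
  have h1 : ⟪a, a⟫ = 1 := by rw [real_inner_self_eq_norm_sq, ha, one_pow]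
  have h2 : ⟪b, b⟫ = 1 := by rw [real_inner_self_eq_norm_sq, hb, one_pow]
  have h3 : ⟪b, a⟫ = 0 := by rw [real_inner_comm, hab]
  simp only [Pj_apply, inner_add_right, real_inner_smul_right, h1, h2, h3, hab]
  simp

theorem Pot.saddle' (H : Pot c M R U g A) (hc : 0 < c) (hM : 0 < M) {a b : E} (ha : ‖a‖ = 1)
    (hb : ‖b‖ = 1) (hab : ⟪a, b⟫ = 0) {s : ℝ} (hs : M < s) (y : E) :
    ∃ x, g x - s • Pj a b x = y ∧ s⁻¹ ≤ b1 a b (A x) := by
  have h4 := Pj_fix ha hb hab
  obtain ⟨x, k1, k2⟩ := H.saddle hc hM (P := Pj a b) (fun x y => by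
    simp only [Pj_apply, inner_add_left, inner_add_right, real_inner_smul_left,
      real_inner_smul_right, real_inner_comm x]
    ring) (fun x => h4 _ _) hs y
  exact ⟨x, k1, (H.spd x).le_b1 hc ha hb hab fun α β => k2 _ (h4 α β)⟩

end Pool.Agent.MP_29b5d3_an.h35

end MrgPart0

-- ======== part 1: formerly Pool.Agent.MP_29b5d3_an.h35.Cover
section MrgPart1

/-! The minimax points cover the image of the ball; comparison with the null Lagrangian. -/

set_option autoImplicit false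

namespace Pool.Agent.MP_29b5d3_an.h35

open Module Set Metric Filter Topology MeasureTheory
open scoped RealInnerProductSpace

variable {E : Type*} [NormedAddCommGroup E] [InnerProductSpace ℝ E] [FiniteDimensional ℝ E]
  [MeasurableSpace E] [BorelSpace E] (μ : Measure E) [μ.IsAddHaarMeasure]

omit [InnerProductSpace ℝ E] [FiniteDimensional ℝ E] in
theorem int_ball [ProperSpace E] {μ : Measure E} [IsFiniteMeasureOnCompacts μ] {φ : E → ℝ}
    (h : Continuous φ) (z : E) (R : ℝ) : IntegrableOn φ (ball z R) μ :=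
  (h.continuousOn.integrableOn_compact (isCompact_closedBall z R)).mono_set ball_subset_closedBall

theorem null_lag (hn : 1 ≤ finrank ℝ E) {G : E → E} {DG : E → E →L[ℝ] E}
    (dG : ∀ x, HasFDerivAt G (DG x) x) (cG : Continuous DG) {R : ℝ} (hR : 0 < R)
    (out : ∀ x, R ≤ ‖x‖ → G x = 0 ∧ DG x = 0) (L : E →L[ℝ] E) :
    ∫ x in ball 0 R, (DG x + L).det ∂μ = L.det * μ.real (ball 0 R) := by
  have : Nontrivial E := finrank_pos_iff.1 hn
  let χ : ContDiffBump (0 : E) := ⟨R, 2 * R, hR, by linarith⟩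
  have e : fderiv ℝ G = DG := funext fun x => (dG x).fderiv
  have g1 : ContDiff ℝ 1 G :=
    contDiff_one_iff_fderiv.2 ⟨fun x => (dG x).differentiableAt, e ▸ cG⟩
  have g2 : HasCompactSupport G := HasCompactSupport.intro (isCompact_closedBall 0 R) fun x hx =>
    (out x (le_of_lt (by simpa using hx))).1
  have a1 : ContDiff ℝ 1 fun x => χ x • L x := χ.contDiff.smul L.contDiff
  have a2 : HasCompactSupport fun x => χ x • L x := χ.hasCompactSupport.smul_right (f' := L)
  have b1 : ContDiff ℝ 1 fun x => G x + χ x • L x := g1.add a1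
  have b2 : HasCompactSupport fun x => G x + χ x • L x := g2.add a2
  have int : ∀ H : E → E, ContDiff ℝ 1 H → HasCompactSupport H →
      Integrable (fun x => (fderiv ℝ H x).det) μ := fun H h1 h2 =>
    (ContinuousLinearMap.continuous_det.comp
      (h1.continuous_fderiv one_ne_zero)).integrable_of_hasCompactSupport
      ((h2.fderiv ℝ).comp_left (g := ContinuousLinearMap.det) (by simp [ContinuousLinearMap.det]))
  have d : ∀ x, fderiv ℝ (fun x => G x + χ x • L x) x = DG x + fderiv ℝ (fun x => χ x • L x) x :=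
    fun x => ((dG x).add (a1.differentiable one_ne_zero x).hasFDerivAt).fderiv
  have d2 : ∀ x ∈ ball (0 : E) R, fderiv ℝ (fun x => χ x • L x) x = L := fun x hx => by
    rw [EventuallyEq.fderiv_eq (f := L), L.fderiv]
    filter_upwards [χ.eventuallyEq_one_of_mem_ball hx] with y hy
    rw [hy, Pi.one_apply, one_smul]
  have k := integral_sub (int _ b1 b2) (int _ a1 a2)
  rw [h48.integral_det_eq_zero μ hn b1 b2, h48.integral_det_eq_zero μ hn a1 a2, sub_zero,
    ← setIntegral_eq_integral_of_forall_compl_eq_zero (s := ball 0 R) fun x hx => by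
      rw [d, (out x (by simpa using hx)).2, zero_add, sub_self],
    setIntegral_congr_fun measurableSet_ball (g := fun x => (DG x + L).det - L.det)
      fun x hx => by simp only [d, d2 x hx],
    integral_sub (int_ball (φ := fun x => (DG x + L).det)
      (ContinuousLinearMap.continuous_det.comp (cG.add continuous_const)) 0 R)
      (int_ball continuous_const 0 R), setIntegral_const, smul_eq_mul, mul_comm] at k
  exact sub_eq_zero.1 k

variable {c M R : ℝ} {U : E → ℝ} {g : E → E} {A : E → E →L[ℝ] E}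

theorem Pot.null (H : Pot c M R U g A) (hn : 1 ≤ finrank ℝ E) (hR : 0 < R) (L : E →L[ℝ] E) :
    ∫ x in ball 0 R, (A x - L).det ∂μ =
      (M • ContinuousLinearMap.id ℝ E - L).det * μ.real (ball 0 R) := by
  rw [← null_lag μ hn (G := fun x => g x - M • x)
    (DG := fun x => A x - M • ContinuousLinearMap.id ℝ E)
    (fun x => (H.dg x).sub ((hasFDerivAt_id x).const_smul M)) (H.cont.sub continuous_const) hR
    fun x hx => by rw [(H.out x hx).1, (H.out x hx).2, sub_self, sub_self]; exact ⟨rfl, rfl⟩]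
  simp only [sub_add_sub_cancel]

theorem Pot.cover (H : Pot c M R U g A) (hc : 0 < c) (hM : 0 < M) (hR : 0 < R) {a b : E}
    (ha : ‖a‖ = 1) (hb : ‖b‖ = 1) (hab : ⟪a, b⟫ = 0) {s : ℝ} (hs : M < s) :
    ∫ x in ball 0 R, (A x).det * (max (1 - s * b1 a b (A x)) 0 * (1 - s * b2 a b (A x))) ∂μ ≤
      0 := by
  have : Nontrivial E := ⟨⟨a, 0, fun e => by simp [e] at ha⟩⟩
  have hn : 1 ≤ finrank ℝ E := finrank_pos
  have s0 : 0 < s := hM.trans hs
  obtain ⟨c1, c2⟩ := SPD.continuous_b hc H.spd H.cont a b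
  have c3 : Continuous fun x => (A x).det := ContinuousLinearMap.continuous_det.comp H.cont
  set L := M • ContinuousLinearMap.id ℝ E - s • Pj a b with hL
  set ψ : E → ℝ := fun x =>
    (A x).det * (min (1 - s * b1 a b (A x)) 0 * (1 - s * b2 a b (A x))) with hψ
  have cψ : Continuous ψ := by fun_prop
  have ψ0 : ∀ x, 0 ≤ ψ x := fun x => by
    refine mul_nonneg ((H.spd x).det_pos hc).le ?_
    rcases le_total (1 - s * b1 a b (A x)) 0 with k | k
    · have := mul_le_mul_of_nonneg_left (b1_le_b2 a b (A x)) s0.le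
      rw [min_eq_left k]
      exact mul_nonneg_of_nonpos_of_nonpos k (by linarith)
    · rw [min_eq_right k, zero_mul]
  have Li : ∀ w, L w = 0 → w = 0 := fun w hw => by
    have k1 : M • w = s • Pj a b w := sub_eq_zero.1 hw
    have k2 := congrArg (Pj a b) k1
    rw [map_smul, map_smul, show Pj a b (Pj a b w) = Pj a b w from Pj_fix ha hb hab _ _,
      ← sub_eq_zero, ← sub_smul, smul_eq_zero] at k2
    rw [k2.resolve_left (sub_ne_zero.2 hs.ne), smul_zero] at k1
    exact (smul_eq_zero.1 k1).resolve_left hM.ne'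
  set S : Set E := {x | s⁻¹ ≤ b1 a b (A x)} ∩ ball 0 R with hS
  have mS : MeasurableSet S :=
    (isClosed_le continuous_const c1).measurableSet.inter measurableSet_ball
  have sub : L '' ball 0 R ⊆ (fun x => g x - s • Pj a b x) '' S := by
    rintro _ ⟨x0, h0, rfl⟩
    obtain ⟨x, k1, k2⟩ := H.saddle' hc hM ha hb hab hs (L x0)
    refine ⟨x, ⟨k2, by_contra fun k3 => ?_⟩, k1⟩
    rw [(H.out x (by simpa using k3)).1] at k1
    have k4 := Li (x - x0) (by rw [map_sub, ← k1]; exact sub_self _)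
    rw [sub_eq_zero.1 k4] at k3
    exact k3 h0
  have k1 := (measure_mono (μ := μ) sub).trans (addHaar_image_le_lintegral_abs_det_fderiv μ mS
    (f' := fun x => A x - s • Pj a b) fun x _ =>
      ((H.dg x).sub ((Pj a b).hasFDerivAt.const_smul s)).hasFDerivWithinAt)
  rw [Measure.addHaar_image_continuousLinearMap,
    setLIntegral_congr_fun mS (g := fun x => ENNReal.ofReal (ψ x)) fun x hx => by
      have k : 1 - s * b1 a b (A x) ≤ 0 := by
        have := mul_le_mul_of_nonneg_left (show s⁻¹ ≤ b1 a b (A x) from hx.1) s0.le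
        rw [mul_inv_cancel₀ s0.ne'] at this
        linarith
      have e : (A x - s • Pj a b).det = ψ x := by
        rw [(H.spd x).det_sub hc, hψ]
        simp only [min_eq_left k]
      simp only [e, abs_of_nonneg (ψ0 x)]] at k1
  have k2 := k1.trans (lintegral_mono_set (μ := μ) (f := fun x => ENNReal.ofReal (ψ x))
    (inter_subset_right : S ⊆ ball 0 R))
  rw [← ofReal_integral_eq_lintegral_ofReal (int_ball cψ 0 R) (Eventually.of_forall ψ0),
    ← ofReal_measureReal measure_ball_lt_top.ne, ← ENNReal.ofReal_mul (abs_nonneg _),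
    ENNReal.ofReal_le_ofReal_iff (integral_nonneg ψ0)] at k2
  have k3 := H.null μ hn hR (s • Pj a b)
  have k4 : ∫ x in ball 0 R,
      (A x).det * (max (1 - s * b1 a b (A x)) 0 * (1 - s * b2 a b (A x))) ∂μ =
      ∫ x in ball 0 R, ((A x - s • Pj a b).det - ψ x) ∂μ := by
    refine integral_congr_ae (Eventually.of_forall fun x => ?_)
    simp only [(H.spd x).det_sub hc, hψ]
    have := max_add_min (1 - s * b1 a b (A x)) 0
    linear_combination (A x).det * (1 - s * b2 a b (A x)) * this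
  rw [k4, integral_sub (int_ball (φ := fun x => (A x - s • Pj a b).det)
    (ContinuousLinearMap.continuous_det.comp (H.cont.sub continuous_const)) 0 R)
    (int_ball cψ 0 R), k3, sub_nonpos]
  exact (mul_le_mul_of_nonneg_right (le_abs_self _) measureReal_nonneg).trans k2

end Pool.Agent.MP_29b5d3_an.h35

end MrgPart1

-- ======== part 2: formerly Pool.Agent.MP_29b5d3_an.h35.Core
section MrgPart2

/-! The Burkholder type integral inequality for Hessians of convex potentials. -/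

set_option autoImplicit false

namespace Pool.Agent.MP_29b5d3_an.h35

open Module Set Metric Filter Topology MeasureTheory
open scoped RealInnerProductSpace

theorem scalar {r β γ M T m : ℝ} (hr : 0 < r) (hM : 0 < M) (hm : 0 < m) (h1 : m⁻¹ ≤ β)
    (h2 : β ≤ γ) (hT : M ≤ T) (hmT : m ≤ T) :
    m ^ r * (1 / r - β * γ * m ^ 2 / (r + 2)) / (r + 1) - M ^ r / r ≤
      ∫ s in M..T, s ^ (r - 1) * (max (1 - s * β) 0 * (1 - s * γ)) := by
  have β0 : 0 < β := lt_of_lt_of_le (by positivity) h1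
  have θ0 : 0 < β⁻¹ := by positivity
  have θ1 : β⁻¹ ≤ m := inv_le_of_inv_le₀ hm h1
  have θ2 : β⁻¹ * β = 1 := inv_mul_cancel₀ β0.ne'
  generalize β⁻¹ = θ at θ0 θ1 θ2
  set Ξ : ℝ → ℝ := fun s => s ^ r * (1 / r - (β + γ) * s / (r + 1) + β * γ * s ^ 2 / (r + 2))
    with hΞ
  have dΞ : ∀ s, 0 < s → HasDerivAt Ξ (s ^ (r - 1) * ((1 - s * β) * (1 - s * γ))) s :=
    fun s hs => by
      refine ((Real.hasDerivAt_rpow_const (p := r) (Or.inl hs.ne')).fun_mul
        (((((hasDerivAt_id s).const_mul (β + γ)).div_const (r + 1)).const_sub (1 / r)).fun_add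
        ((((hasDerivAt_id s).pow 2).const_mul (β * γ)).div_const (r + 2)))).congr_deriv ?_
      rw [Real.rpow_sub_one hs.ne']
      simp only [id, Pi.pow_apply]
      field_simp
      ring
  have dh : ∀ s, 0 < s → HasDerivAt (fun s => s ^ r * (1 / r - β * γ * s ^ 2 / (r + 2)))
      (s ^ (r - 1) * (1 - β * γ * s ^ 2)) s := fun s hs => by
    refine ((Real.hasDerivAt_rpow_const (p := r) (Or.inl hs.ne')).fun_mul
      (((((hasDerivAt_id s).pow 2).const_mul (β * γ)).div_const (r + 2)).const_sub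
        (1 / r))).congr_deriv ?_
    rw [Real.rpow_sub_one hs.ne']
    simp only [id, Pi.pow_apply]
    field_simp
    ring
  have a1 : m ^ r * (1 / r - β * γ * m ^ 2 / (r + 2)) ≤
      θ ^ r * (1 / r - β * γ * θ ^ 2 / (r + 2)) :=
    antitoneOn_of_deriv_nonpos (convex_Ici θ)
      (fun x hx => (dh x (θ0.trans_le hx)).continuousAt.continuousWithinAt)
      (fun x hx => (dh x (θ0.trans_le (interior_subset hx))).differentiableAt.differentiableWithinAt)
      (fun x hx => by
        have k : θ ≤ x := interior_subset hx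
        have x0 := θ0.trans_le k
        rw [(dh x x0).deriv]
        refine mul_nonpos_of_nonneg_of_nonpos (by positivity) ?_
        have k1 : 1 ≤ x * β := θ2 ▸ mul_le_mul_of_nonneg_right k β0.le
        have k2 : x * β ≤ x * γ := by gcongr
        nlinarith) (mem_Ici.2 le_rfl) θ1 θ1
  have a2 : Ξ θ = θ ^ r * (1 / r - β * γ * θ ^ 2 / (r + 2)) / (r + 1) := by
    have e : β = θ⁻¹ := eq_inv_of_mul_eq_one_right θ2
    simp only [hΞ, e]
    field_simp
    ring
  have a3 : ∀ σ, 0 < σ → σ ≤ θ → σ ≤ M → Ξ σ ≤ M ^ r / r := fun σ k0 k1 k2 => by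
    have k3 : σ * β ≤ 1 := θ2 ▸ mul_le_mul_of_nonneg_right k1 β0.le
    have γ0 : 0 < γ := β0.trans_le h2
    have k4 : β * γ * σ ^ 2 / (r + 2) ≤ (β + γ) * σ / (r + 1) := by
      gcongr ?_ / ?_
      · nlinarith [mul_le_mul_of_nonneg_left k3 (show 0 ≤ γ * σ by positivity), mul_pos β0 k0]
      · linarith
    calc Ξ σ ≤ σ ^ r * (1 / r) := mul_le_mul_of_nonneg_left (by linarith) (by positivity)
      _ ≤ M ^ r * (1 / r) := by gcongr
      _ = _ := by ring
  have z : ∀ u, θ ≤ u → u ≤ T →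
      ∫ s in u..T, s ^ (r - 1) * (max (1 - s * β) 0 * (1 - s * γ)) = 0 := fun u k1 k2 => by
    rw [intervalIntegral.integral_congr (g := fun _ => 0) fun s hs => ?_,
      intervalIntegral.integral_zero]
    rw [uIcc_of_le k2] at hs
    have k3 : 1 ≤ s * β := θ2 ▸ mul_le_mul_of_nonneg_right (k1.trans hs.1) β0.le
    simp only [max_eq_right (sub_nonpos.2 k3), zero_mul, mul_zero]
  have a4 : m ^ r * (1 / r - β * γ * m ^ 2 / (r + 2)) / (r + 1) ≤ Ξ θ := by
    rw [a2]
    gcongr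
  rcases le_total θ M with k | k
  · rw [z M k hT]
    linarith [a3 θ θ0 le_rfl k]
  · have i : ∀ u w, 0 < u → u ≤ w → IntervalIntegrable
        (fun s => s ^ (r - 1) * (max (1 - s * β) 0 * (1 - s * γ))) volume u w := fun u w u0 uw =>
      ContinuousOn.intervalIntegrable_of_Icc uw
        ((continuousOn_id.rpow_const fun s hs => Or.inl (u0.trans_le hs.1).ne').mul (by fun_prop))
    rw [← intervalIntegral.integral_add_adjacent_intervals (i M θ hM k) (i θ T θ0 (θ1.trans hmT)),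
      z θ le_rfl (θ1.trans hmT), intervalIntegral.integral_eq_sub_of_hasDerivAt (f := Ξ)
        (fun s hs => ?_) (i M θ hM k)]
    · linarith [a3 M hM k le_rfl]
    · rw [uIcc_of_le k] at hs
      have k3 : s * β ≤ 1 := θ2 ▸ mul_le_mul_of_nonneg_right hs.2 β0.le
      rw [max_eq_left (sub_nonneg.2 k3)]
      exact dΞ s (hM.trans_le hs.1)

variable {E : Type*} [NormedAddCommGroup E] [InnerProductSpace ℝ E] [FiniteDimensional ℝ E]
  [MeasurableSpace E] [BorelSpace E] (μ : Measure E) [μ.IsAddHaarMeasure]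
  {c M R : ℝ} {U : E → ℝ} {g : E → E} {A : E → E →L[ℝ] E}

theorem Pot.plane (H : Pot c M R U g A) (hc : 0 < c) (hM : 0 < M) (hR : 0 < R) {a b : E}
    (ha : ‖a‖ = 1) (hb : ‖b‖ = 1) (hab : ⟪a, b⟫ = 0) {r : ℝ} (hr : 0 < r) :
    ∫ x in ball 0 R, (A x).det * (‖A x‖ ^ r *
      (1 / r - b1 a b (A x) * b2 a b (A x) * ‖A x‖ ^ 2 / (r + 2)) / (r + 1) - M ^ r / r) ∂μ ≤
      0 := by
  obtain ⟨c1, c2⟩ := SPD.continuous_b hc H.spd H.cont a b
  have c3 : Continuous fun x => (A x).det := ContinuousLinearMap.continuous_det.comp H.cont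
  have c4 : Continuous fun x => ‖A x‖ := H.cont.norm
  have c5 : Continuous fun x => ‖A x‖ ^ r := c4.rpow_const fun _ => Or.inr hr.le
  obtain ⟨T0, hT0⟩ :=
    (isCompact_closedBall (0 : E) R).exists_bound_of_continuousOn H.cont.continuousOn
  have hT := le_max_left M T0
  have hT1 : ∀ x ∈ ball (0 : E) R, ‖A x‖ ≤ max M T0 := fun x hx =>
    (hT0 x (ball_subset_closedBall hx)).trans (le_max_right _ _)
  generalize max M T0 = T at hT hT1
  set F : ℝ → E → ℝ := fun s x => s ^ (r - 1) *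
    ((A x).det * (max (1 - s * b1 a b (A x)) 0 * (1 - s * b2 a b (A x)))) with hF
  have i1 : Integrable (Function.uncurry F)
      ((volume.restrict (Ioc M T)).prod (μ.restrict (ball 0 R))) := by
    rw [Measure.prod_restrict]
    refine IntegrableOn.mono_set (ContinuousOn.integrableOn_compact
      ((isCompact_Icc (a := M) (b := T)).prod (isCompact_closedBall (0 : E) R)) ?_)
      (prod_mono Ioc_subset_Icc_self ball_subset_closedBall)
    have d1 := c1.comp (continuous_snd (X := ℝ))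
    have d2 := c2.comp (continuous_snd (X := ℝ))
    exact (continuousOn_fst.rpow_const fun p hp => Or.inl (hM.trans_le hp.1.1).ne').mul
      ((c3.comp continuous_snd).mul (((continuous_const.sub (continuous_fst.mul d1)).max
        continuous_const).mul (continuous_const.sub (continuous_fst.mul d2)))).continuousOn
  have k1 : ∫ s in Ioc M T, ∫ x in ball 0 R, F s x ∂μ ≤ 0 :=
    setIntegral_nonpos measurableSet_Ioc fun s hs => by
      have s0 := hM.trans hs.1
      simp only [hF]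
      rw [integral_const_mul]
      exact mul_nonpos_of_nonneg_of_nonpos (by positivity) (H.cover μ hc hM hR ha hb hab hs.1)
  rw [integral_integral_swap i1] at k1
  refine le_trans (setIntegral_mono_on (int_ball (by fun_prop) 0 R) i1.integral_prod_right
    measurableSet_ball fun x hx => ?_) k1
  obtain ⟨m0, m1⟩ := (H.spd x).inv_norm_le_b1 hc ha hb hab
  have k2 := mul_le_mul_of_nonneg_left (scalar hr hM m0 m1 (b1_le_b2 a b (A x)) hT (hT1 x hx))
    ((H.spd x).det_pos hc).le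
  refine k2.trans (le_of_eq ?_)
  rw [intervalIntegral.integral_of_le hT, ← integral_const_mul]
  refine integral_congr_ae (Eventually.of_forall fun s => ?_)
  simp only [hF, Function.uncurry]
  ring

theorem Pot.core {n : ℕ} (hn : finrank ℝ E = n) (h2 : 2 ≤ n) (H : Pot c M R U g A) (hc : 0 < c)
    (hM : 0 < M) (hR : 0 < R) {r : ℝ} (hr : 0 < r) :
    ∫ x in ball 0 R, ‖A x‖ ^ r * ((n + r) * (A x).det - r * ‖A x‖ ^ n) ∂μ ≤
      n * (r + 1) * (r + 2) / 2 * M ^ r * (M ^ n * μ.real (ball 0 R)) := by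
  classical
  set e := (stdOrthonormalBasis ℝ E).reindex (finCongr hn)
  have n2 : (2 : ℝ) ≤ n := by exact_mod_cast h2
  have c3 : Continuous fun x => (A x).det := ContinuousLinearMap.continuous_det.comp H.cont
  have c4 : Continuous fun x => ‖A x‖ := H.cont.norm
  have c5 : Continuous fun x => ‖A x‖ ^ r := c4.rpow_const fun _ => Or.inr hr.le
  set G : Fin n → Fin n → E → ℝ := fun i j x => (A x).det * (‖A x‖ ^ r * (1 / r -
    b1 (e i) (e j) (A x) * b2 (e i) (e j) (A x) * ‖A x‖ ^ 2 / (r + 2)) / (r + 1) - M ^ r / r)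
    with hG
  have iG : ∀ i j, IntegrableOn (G i j) (ball 0 R) μ := fun i j => by
    obtain ⟨c1, c2⟩ := SPD.continuous_b hc H.spd H.cont (e i) (e j)
    exact int_ball (by fun_prop) 0 R
  have k1 : ∫ x in ball 0 R, ∑ i, ∑ j ∈ Finset.univ.erase i, G i j x ∂μ ≤ 0 := by
    rw [integral_finsetSum _ fun i _ => integrable_finsetSum _ fun j _ => iG i j]
    refine Finset.sum_nonpos fun i _ => ?_
    rw [integral_finsetSum _ fun j _ => iG i j]
    exact Finset.sum_nonpos fun j hj => H.plane μ hc hM hR (e.orthonormal.1 i) (e.orthonormal.1 j)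
      (e.orthonormal.2 (Finset.ne_of_mem_erase hj).symm) hr
  have k2 : ∀ x, 2 * (n - 1) / (r * (r + 1) * (r + 2)) *
      (‖A x‖ ^ r * ((n + r) * (A x).det - r * ‖A x‖ ^ n)) - n * (n - 1) * M ^ r / r * (A x).det ≤
      ∑ i, ∑ j ∈ Finset.univ.erase i, G i j x := fun x => by
    have a1 := (H.spd x).sum_b hn (by omega) hc e
    have a2 : ∀ i, ∑ j ∈ Finset.univ.erase i, b1 (e i) (e j) (A x) * b2 (e i) (e j) (A x) =
        ∑ j, b1 (e i) (e j) (A x) * b2 (e i) (e j) (A x) := fun i =>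
      Finset.sum_erase _ (by simp only [b1, b2, lo_mul_hi]; ring)
    have a3 : ∀ i j, G i j x = (A x).det * (‖A x‖ ^ r / (r * (r + 1)) - M ^ r / r) -
        (A x).det * ‖A x‖ ^ 2 * ‖A x‖ ^ r / ((r + 1) * (r + 2)) *
          (b1 (e i) (e j) (A x) * b2 (e i) (e j) (A x)) := fun i j => by
      simp only [hG]
      field_simp
      ring
    simp only [a3, Finset.sum_sub_distrib, ← Finset.mul_sum, a2, Finset.sum_const,
      Finset.card_erase_of_mem (Finset.mem_univ _), Finset.card_univ, Fintype.card_fin,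
      nsmul_eq_mul]
    rw [Nat.cast_sub (by omega), Nat.cast_one]
    have a4 := mul_le_mul_of_nonneg_left a1
      (show 0 ≤ ‖A x‖ ^ r / ((r + 1) * (r + 2)) by positivity)
    generalize ∑ i, ∑ j, b1 (e i) (e j) (A x) * b2 (e i) (e j) (A x) = S at a4
    rw [← sub_nonneg] at a4 ⊢
    refine a4.trans (le_of_eq ?_)
    field_simp
    ring
  have i1 : IntegrableOn (fun x => ‖A x‖ ^ r * ((n + r) * (A x).det - r * ‖A x‖ ^ n))
      (ball 0 R) μ := int_ball (by fun_prop) 0 R
  have i2 : IntegrableOn (fun x => (A x).det) (ball 0 R) μ := int_ball c3 0 R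
  have k3 := (integral_mono ((i1.const_mul _).sub (i2.const_mul _))
    (integrable_finsetSum _ fun i _ => integrable_finsetSum _ fun j _ => iG i j) k2).trans k1
  have k4 := H.null μ (by omega) hR 0
  simp only [sub_zero, ContinuousLinearMap.det, ContinuousLinearMap.toLinearMap_smul,
    LinearMap.det_smul, ContinuousLinearMap.coe_id, LinearMap.det_id, mul_one, hn] at k4
  simp only [Pi.sub_apply] at k3
  rw [integral_sub (i1.const_mul _) (i2.const_mul _), integral_const_mul, integral_const_mul,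
    show ∫ x in ball 0 R, (A x).det ∂μ = _ from k4, sub_nonpos] at k3
  have n1 : (0 : ℝ) < n - 1 := by linarith
  refine le_of_mul_le_mul_left (k3.trans (le_of_eq ?_)) (by positivity)
  field_simp

end Pool.Agent.MP_29b5d3_an.h35

end MrgPart2

-- ======== part 3: formerly Pool.Agent.MP_29b5d3_an.h35.Cone
section MrgPart3

/-! The convex cone of positive symmetric operators with bounded distortion. -/

set_option autoImplicit false

namespace Pool.Agent.MP_29b5d3_an.h35

open Module Finset MeasureTheory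
open scoped RealInnerProductSpace

variable {E : Type*} [NormedAddCommGroup E] [InnerProductSpace ℝ E]

/-- a dual description of the positive operators with `(κ ‖X‖) ^ n ≤ det X` -/
structure Cone (n : ℕ) (κ : ℝ) (X : E →L[ℝ] E) : Prop where
  symm : ∀ x y, ⟪X x, y⟫ = ⟪x, X y⟫
  pos : ∀ x, 0 ≤ ⟪X x, x⟫
  dual : ∀ (v : OrthonormalBasis (Fin n) ℝ E) (w : Fin n → ℝ), (∀ i, 0 < w i) → ∏ i, w i = 1 →
    n * κ * ‖X‖ ≤ ∑ i, w i * ⟪X (v i), v i⟫

variable {n : ℕ} {κ : ℝ} {X : E →L[ℝ] E}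

theorem Cone.smul (h : Cone n κ X) {t : ℝ} (ht : 0 ≤ t) : Cone n κ (t • X) := by
  refine ⟨fun x y => ?_, fun x => ?_, fun v w w0 w1 => ?_⟩
  · rw [smul_apply, smul_apply, real_inner_smul_left, real_inner_smul_right, h.symm]
  · rw [smul_apply, real_inner_smul_left]
    exact mul_nonneg ht (h.pos x)
  · have k := mul_le_mul_of_nonneg_left (h.dual v w w0 w1) ht
    rw [norm_smul, Real.norm_of_nonneg ht]
    rw [mul_sum] at k
    simp only [smul_apply, real_inner_smul_left]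
    calc _ = t * (n * κ * ‖X‖) := by ring
      _ ≤ _ := k
      _ = _ := sum_congr rfl fun i _ => by ring

theorem Cone.zero : Cone n κ (0 : E →L[ℝ] E) :=
  ⟨fun x y => by simp, fun x => by simp, fun v w _ _ => by simp⟩

variable [FiniteDimensional ℝ E]

theorem Cone.integral {α : Type*} [MeasurableSpace α] {μ : Measure α} {H : α → E →L[ℝ] E}
    (hκ : 0 ≤ κ) (hH : Integrable H μ) (h : ∀ᵐ t ∂μ, Cone n κ (H t)) :
    Cone n κ (∫ t, H t ∂μ) := by
  have : CompleteSpace E := FiniteDimensional.complete ℝ E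
  have i : ∀ x y, Integrable (fun t => ⟪H t x, y⟫) μ := fun x y =>
    (hH.apply_continuousLinearMap x).inner_const y
  have e : ∀ x y, ⟪(∫ t, H t ∂μ) x, y⟫ = ∫ t, ⟪H t x, y⟫ ∂μ := fun x y => by
    rw [ContinuousLinearMap.integral_apply hH, real_inner_comm,
      ← integral_inner (hH.apply_continuousLinearMap x)]
    simp only [real_inner_comm]
  refine ⟨fun x y => ?_, fun x => ?_, fun v w w0 w1 => ?_⟩
  · rw [real_inner_comm (_ : E) x, e, e]
    exact integral_congr_ae (h.mono fun t ht => by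
      beta_reduce
      rw [ht.symm, real_inner_comm])
  · rw [e]
    exact integral_nonneg_of_ae (h.mono fun t ht => ht.pos x)
  · simp only [e, ← integral_const_mul]
    rw [← integral_finsetSum _ fun j _ => (i _ _).const_mul _]
    refine (mul_le_mul_of_nonneg_left (norm_integral_le_integral_norm _) (by positivity)).trans ?_
    rw [← integral_const_mul]
    exact integral_mono_ae (hH.norm.const_mul _)
      (integrable_finsetSum _ fun j _ => (i _ _).const_mul _) (h.mono fun t ht => ht.dual v w w0 w1)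

theorem Cone.of_det (hn : finrank ℝ E = n) (hκ : 0 < κ) (h1 : ∀ x y, ⟪X x, y⟫ = ⟪x, X y⟫)
    (h2 : ∀ x, 0 ≤ ⟪X x, x⟫) (h3 : (κ * ‖X‖) ^ n ≤ X.det) : Cone n κ X := by
  refine ⟨h1, h2, fun v w w0 w1 => ?_⟩
  rcases (norm_nonneg X).eq_or_lt with m0 | m0
  · rw [← m0, mul_zero]
    exact sum_nonneg fun i _ => mul_nonneg (w0 i).le (h2 _)
  obtain ⟨u, l, u1, u2, u3⟩ := SPD.spec (c := 0) hn ⟨h1, fun x => by simpa using h2 x⟩
  have G0 : 0 < κ * ‖X‖ := by positivity
  have l0 : ∀ k, 0 < l k := fun k => (u3 k).1.lt_of_ne fun e => by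
    rw [u2, prod_eq_zero (mem_univ k) e.symm] at h3
    exact absurd (pow_pos G0 n) h3.not_gt
  have e : ∀ i, ⟪X (v i), v i⟫ = ∑ k, l k * ⟪u k, v i⟫ ^ 2 := fun i => by
    rw [← u.sum_inner_mul_inner]
    refine sum_congr rfl fun k _ => ?_
    rw [h1, u1, real_inner_smul_right, real_inner_comm]
    ring
  have p1 : ∀ i, ∑ k, ⟪u k, v i⟫ ^ 2 = 1 := fun i => by
    rw [u.sum_sq_inner_right, v.orthonormal.1 i, one_pow]
  have p2 : ∀ k, ∑ i, ⟪u k, v i⟫ ^ 2 = 1 := fun k => by
    rw [v.sum_sq_inner_left, u.orthonormal.1 k, one_pow]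
  rw [mul_assoc]
  set G := κ * ‖X‖
  have k1 : ∀ i k, ⟪u k, v i⟫ ^ 2 * (1 - Real.log G) + ⟪u k, v i⟫ ^ 2 * Real.log (w i) +
      ⟪u k, v i⟫ ^ 2 * Real.log (l k) ≤ G⁻¹ * (w i * (l k * ⟪u k, v i⟫ ^ 2)) := fun i k => by
    have := w0 i
    have := l0 k
    have a := Real.log_le_sub_one_of_pos (show 0 < G⁻¹ * (w i * l k) by positivity)
    rw [Real.log_mul (by positivity) (by positivity), Real.log_mul (by positivity) (by positivity),
      Real.log_inv] at a
    nlinarith [mul_le_mul_of_nonneg_left a (sq_nonneg ⟪u k, v i⟫)]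
  have k2 := sum_le_sum (s := univ) fun i _ => sum_le_sum (s := univ) fun k _ => k1 i k
  simp only [sum_add_distrib] at k2
  rw [sum_comm (f := fun i k => ⟪u k, v i⟫ ^ 2 * Real.log (l k))] at k2
  simp only [← sum_mul, ← mul_sum, p1, p2, one_mul, ← e, sum_const, card_univ, Fintype.card_fin,
    nsmul_eq_mul] at k2
  rw [← Real.log_prod fun i _ => (w0 i).ne', ← Real.log_prod fun i _ => (l0 i).ne', w1, ← u2,
    Real.log_one] at k2
  have k3 := Real.log_le_log (pow_pos G0 n) h3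
  rw [Real.log_pow] at k3
  rw [← le_div_iff₀ G0, div_eq_inv_mul]
  linarith

theorem Cone.le_det (hn : finrank ℝ E = n) (h1 : 1 ≤ n) (hκ : 0 ≤ κ) (h : Cone n κ X) {c : ℝ}
    (hc : 0 < c) {A : E →L[ℝ] E} (hA : SPD c A) (hX : ∀ x, ⟪X x, x⟫ ≤ ⟪A x, x⟫) :
    (κ * ‖X‖) ^ n ≤ A.det := by
  obtain ⟨u, l, u1, u2, u3⟩ := hA.spec hn
  have l0 : ∀ i, 0 < l i := fun i => hc.trans_le (u3 i).1
  have D0 := hA.det_pos hc
  have n0 : (0 : ℝ) < n := by exact_mod_cast h1
  set G := A.det ^ (n : ℝ)⁻¹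
  have G0 : 0 < G := by positivity
  have Gn : G ^ n = A.det := Real.rpow_inv_natCast_pow D0.le (by omega)
  have k := h.dual u (fun i => G * (l i)⁻¹) (fun i => by have := l0 i; positivity) (by
    rw [prod_mul_distrib, prod_const, prod_inv_distrib, ← u2, card_univ, Fintype.card_fin, Gn,
      mul_inv_cancel₀ D0.ne'])
  have k2 : ∑ i, G * (l i)⁻¹ * ⟪X (u i), u i⟫ ≤ ∑ _i : Fin n, G := sum_le_sum fun i _ => by
    have a := hX (u i)
    have := l0 i
    rw [eig_inner (u.orthonormal.1 i) (u1 i)] at a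
    calc _ ≤ G * (l i)⁻¹ * l i := by gcongr
      _ = G := by field_simp
  rw [sum_const, card_univ, Fintype.card_fin, nsmul_eq_mul] at k2
  rw [← Gn]
  have k3 := k.trans k2
  rw [mul_assoc] at k3
  exact pow_le_pow_left₀ (by positivity) (le_of_mul_le_mul_left k3 n0) n

end Pool.Agent.MP_29b5d3_an.h35

end MrgPart3

-- ======== part 4: formerly Pool.Agent.MP_29b5d3_an.h35.Build
section MrgPart4

/-! A local a priori estimate for smooth gradient maps with values in the cone. -/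

set_option autoImplicit false

namespace Pool.Agent.MP_29b5d3_an.h35

open Module Set Metric Filter Topology MeasureTheory
open scoped RealInnerProductSpace

theorem growth (n : ℕ) {r κ C : ℝ} (hr : 0 < r) (hκ : 0 < κ) (h : r < (n + r) * κ ^ n)
    (hC : 0 ≤ C) : ∃ a b : ℝ, 0 < a ∧ 0 ≤ b ∧ ∀ m t D : ℝ, 0 ≤ m → 0 ≤ t → m ≤ t + C →
      (κ * t) ^ n ≤ D → a * (m ^ r * m ^ n) ≤ m ^ r * ((n + r) * D - r * m ^ n) + b := by
  have ev : ∀ᶠ η : ℝ in 𝓝 0, r < (n + r) * (κ * (1 - η)) ^ n :=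
    ((by fun_prop : Continuous fun η : ℝ => (n + r) * (κ * (1 - η)) ^ n).tendsto' 0 _
      (by simp)).eventually (lt_mem_nhds h)
  obtain ⟨η, e1, e2⟩ := ((ev.filter_mono (nhdsWithin_le_nhds (s := Ioi 0))).and
    (Ioo_mem_nhdsGT one_pos)).exists
  have η0 : 0 < η := e2.1
  have η1 : 0 < 1 - η := sub_pos.2 e2.2
  refine ⟨(n + r) * (κ * (1 - η)) ^ n - r, (n + r) * (κ * (1 - η)) ^ n *
    ((C / η) ^ r * (C / η) ^ n), sub_pos.2 e1, by positivity, fun m t D m0 t0 h1 h2 => ?_⟩
  have D0 : 0 ≤ D := le_trans (by positivity) h2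
  rcases le_total m (C / η) with k | k
  · have k1 : m ^ r * m ^ n ≤ (C / η) ^ r * (C / η) ^ n := by gcongr
    have k2 := mul_le_mul_of_nonneg_left k1
      (show 0 ≤ (n + r) * (κ * (1 - η)) ^ n by positivity)
    have k3 : 0 ≤ m ^ r * ((n + r) * D) := by positivity
    linarith
  · rw [div_le_iff₀ η0] at k
    have k1 : (κ * (1 - η) * m) ^ n ≤ D := le_trans (by
      rw [mul_assoc]
      gcongr
      linarith) h2
    rw [mul_pow] at k1
    have k2 := mul_le_mul_of_nonneg_left k1 (show 0 ≤ m ^ r * (n + r) by positivity)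
    have k3 : 0 ≤ (n + r) * (κ * (1 - η)) ^ n * ((C / η) ^ r * (C / η) ^ n) := by positivity
    linarith

variable {E : Type*} [NormedAddCommGroup E] [InnerProductSpace ℝ E] [FiniteDimensional ℝ E]

theorem build {ρ : ℝ} (hρ : 0 < ρ) {B : ℝ} (hB : 0 ≤ B) : ∃ C : ℝ, 0 ≤ C ∧
    ∀ (n : ℕ) (κ : ℝ) (F : E → E) (G : E → E →L[ℝ] E), (∀ x, HasFDerivAt F (G x) x) →
      Continuous G → (∀ x, ‖F x‖ ≤ B) → (∀ x ∈ ball (0 : E) (3 * ρ), Cone n κ (G x)) →
      ∃ (U : E → ℝ) (g : E → E) (A X : E → E →L[ℝ] E), Pot 1 (C + 1) (3 * ρ) U g A ∧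
        (∀ x, Cone n κ (X x) ∧ (∀ v, ⟪X x v, v⟫ ≤ ⟪A x v, v⟫) ∧ ‖A x - X x‖ ≤ 2 * C + 1) ∧
        ∀ x ∈ ball (0 : E) ρ, X x = G x := by
  have : CompleteSpace E := FiniteDimensional.complete ℝ E
  let χ : ContDiffBump (0 : E) := ⟨ρ, 2 * ρ, hρ, by linarith⟩
  have χ1 : ContDiff ℝ 2 χ := χ.contDiff
  set ψ : E → E := fun x => (InnerProductSpace.toDual ℝ E).symm (fderiv ℝ χ x) with hψ
  have ψ1 : ContDiff ℝ 1 ψ := (InnerProductSpace.toDual ℝ E).symm.contDiff.comp
    (χ1.fderiv_right (m := 1) le_rfl)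
  have dχ : ∀ x, HasFDerivAt χ (innerSL ℝ (ψ x)) x := fun x => by
    refine (χ1.differentiable two_ne_zero x).hasFDerivAt.congr_fderiv ?_
    ext v
    simp [hψ]
  have dψ : ∀ x, HasFDerivAt ψ (fderiv ℝ ψ x) x := fun x =>
    (ψ1.differentiable one_ne_zero x).hasFDerivAt
  have cψ : Continuous (fderiv ℝ ψ) := ψ1.continuous_fderiv one_ne_zero
  have o1 : ∀ x, x ∉ closedBall (0 : E) (2 * ρ) → ∀ᶠ y in 𝓝 x, χ y = 0 ∧ ψ y = 0 := fun x hx => by
    filter_upwards [isClosed_closedBall.isOpen_compl.mem_nhds hx] with y hy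
    have k : y ∉ tsupport χ := by rw [χ.tsupport_eq]; exact hy
    exact ⟨image_eq_zero_of_notMem_tsupport k, by
      simp only [hψ, fderiv_of_notMem_tsupport ℝ k, map_zero]⟩
  have o2 : ∀ x, x ∉ closedBall (0 : E) (2 * ρ) → fderiv ℝ ψ x = 0 := fun x hx => by
    rw [EventuallyEq.fderiv_eq (f := fun _ => 0) ((o1 x hx).mono fun y hy => hy.2)]
    simp
  obtain ⟨B1, hB1⟩ := ψ1.continuous.bounded_above_of_compact_support
    (HasCompactSupport.intro (isCompact_closedBall 0 (2 * ρ)) fun x hx => (o1 x hx).self_of_nhds.2)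
  obtain ⟨B2, hB2⟩ := cψ.bounded_above_of_compact_support
    (HasCompactSupport.intro (isCompact_closedBall 0 (2 * ρ)) o2)
  have B10 := (norm_nonneg _).trans (hB1 0)
  have B20 := (norm_nonneg _).trans (hB2 0)
  refine ⟨2 * (B1 * B) + B * (3 * ρ) * B2, by positivity, fun n κ F G dF cG bF hG => ?_⟩
  set C := 2 * (B1 * B) + B * (3 * ρ) * B2 with hC
  have cF : Continuous F := continuous_iff_continuousAt.2 fun x => (dF x).continuousAt
  have dω : ∀ x, HasFDerivAt (fun x => innerSL ℝ (F x)) ((innerSL ℝ).comp (G x)) x := fun x =>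
    (innerSL ℝ (E := E)).hasFDerivAt.comp x (dF x)
  obtain ⟨u0, du0⟩ := (convex_ball (0 : E) (3 * ρ)).exists_forall_hasFDerivAt_of_fderiv_symmetric
    isOpen_ball (ω := fun x => innerSL ℝ (F x))
    (fun x _ => (dω x).differentiableAt.differentiableWithinAt) fun a ha x y => by
      rw [(dω a).fderiv]
      simp only [ContinuousLinearMap.comp_apply, innerSL_apply_apply]
      rw [(hG a ha).symm, real_inner_comm]
  obtain ⟨u, du, bu⟩ : ∃ u : E → ℝ, (∀ x ∈ ball (0 : E) (3 * ρ),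
      HasFDerivAt u (innerSL ℝ (F x)) x) ∧ ∀ x ∈ ball (0 : E) (3 * ρ), |u x| ≤ B * (3 * ρ) :=
    ⟨fun x => u0 x - u0 0, fun x hx => (du0 x hx).sub_const _, fun x hx => by
      refine ((convex_ball (0 : E) (3 * ρ)).norm_image_sub_le_of_norm_hasFDerivWithin_le (C := B)
        (fun y hy => (du0 y hy).hasFDerivWithinAt) (fun y _ => by simpa using bF y)
        (mem_ball_self (by positivity)) hx).trans ?_
      rw [sub_zero]
      gcongr
      exact (mem_ball_zero_iff.1 hx).le⟩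
  have sub : closedBall (0 : E) (2 * ρ) ⊆ ball 0 (3 * ρ) := closedBall_subset_ball (by linarith)
  have cs : ∀ x, x ∈ ball (0 : E) (3 * ρ) ∨ x ∉ closedBall (0 : E) (2 * ρ) := fun x =>
    (em _).imp_left fun h => sub h
  set W : E → E := fun x => χ x • F x + u x • ψ x with hW
  set Z : E → E →L[ℝ] E := fun x => (innerSL ℝ (ψ x)).smulRight (F x) +
    (u x • fderiv ℝ ψ x + (innerSL ℝ (F x)).smulRight (ψ x)) with hZ
  have Z0 : ∀ x, x ∉ closedBall (0 : E) (2 * ρ) → Z x = 0 := fun x hx => by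
    ext v
    simp [hZ, (o1 x hx).self_of_nhds.2, o2 x hx]
  have W0 : ∀ x, x ∉ closedBall (0 : E) (2 * ρ) → ∀ᶠ y in 𝓝 x, W y = 0 := fun x hx =>
    (o1 x hx).mono fun y hy => by simp [hW, hy.1, hy.2]
  have d1 : ∀ x, HasFDerivAt (fun x => χ x * u x) (innerSL ℝ (W x)) x := fun x => by
    rcases cs x with hx | hx
    · refine ((dχ x).mul (du x hx)).congr_fderiv ?_
      simp [hW]
    · rw [(W0 x hx).self_of_nhds, map_zero]
      exact (hasFDerivAt_const (0 : ℝ) x).congr_of_eventuallyEq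
        ((o1 x hx).mono fun y hy => by simp [hy.1])
  have d2 : ∀ x, HasFDerivAt W (χ x • G x + Z x) x := fun x => by
    rcases cs x with hx | hx
    · refine (((dχ x).smul (dF x)).add ((du x hx).smul (dψ x))).congr_fderiv ?_
      simp only [hZ, add_assoc]
    · rw [(o1 x hx).self_of_nhds.1, Z0 x hx, zero_smul, add_zero]
      exact (hasFDerivAt_const (0 : E) x).congr_of_eventuallyEq (W0 x hx)
  have bZ : ∀ x, ‖Z x‖ ≤ C := fun x => by
    rcases cs x with hx | hx
    · have a1 : ‖(innerSL ℝ (ψ x)).smulRight (F x)‖ ≤ B1 * B := by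
        rw [ContinuousLinearMap.norm_smulRight_apply, innerSL_apply_norm]
        gcongr
        exacts [hB1 x, bF x]
      have a2 : ‖(innerSL ℝ (F x)).smulRight (ψ x)‖ ≤ B1 * B := by
        rw [ContinuousLinearMap.norm_smulRight_apply, innerSL_apply_norm, mul_comm]
        gcongr
        exacts [hB1 x, bF x]
      have a3 : ‖u x • fderiv ℝ ψ x‖ ≤ B * (3 * ρ) * B2 := by
        rw [norm_smul]
        gcongr
        exacts [bu x hx, hB2 x]
      refine (norm_add_le_of_le a1 (norm_add_le_of_le a3 a2)).trans (le_of_eq ?_)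
      ring
    · rw [Z0 x hx, norm_zero]
      positivity
  have cZ : Continuous Z := by
    refine (h48.extend isOpen_ball (isCompact_closedBall 0 (2 * ρ)) sub ?_ Z0).1
    have cu : ContinuousOn u (ball 0 (3 * ρ)) := fun x hx =>
      (du x hx).continuousAt.continuousWithinAt
    have k : ∀ {a b : E → E}, Continuous a → Continuous b →
        Continuous fun x => (innerSL ℝ (a x)).smulRight (b x) := fun ha hb =>
      continuous_clm_apply.2 fun v => (ha.inner continuous_const).smul hb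
    exact (k ψ1.continuous cF).continuousOn.add
      ((cu.smul cψ.continuousOn).add (k cF ψ1.continuous).continuousOn)
  have hX : ∀ x, Cone n κ (χ x • G x) := fun x => by
    rcases cs x with hx | hx
    · exact (hG x hx).smul χ.nonneg
    · rw [(o1 x hx).self_of_nhds.1, zero_smul]
      exact Cone.zero
  have d3 : ∀ x, HasFDerivAt (fun x => χ x * u x + (C + 1) / 2 * ‖x‖ ^ 2)
      (innerSL ℝ (W x + (C + 1) • x)) x := fun x => by
    refine ((d1 x).add (((hasFDerivAt_id x).norm_sq).const_mul ((C + 1) / 2))).congr_fderiv ?_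
    ext v
    simp only [add_apply, smul_apply, ContinuousLinearMap.comp_apply, innerSL_apply_apply,
      inner_add_left, real_inner_smul_left, smul_eq_mul, nsmul_eq_mul, id,
      ContinuousLinearMap.id_apply]
    push_cast
    ring
  have d4 : ∀ x, HasFDerivAt (fun x => W x + (C + 1) • x)
      (χ x • G x + Z x + (C + 1) • ContinuousLinearMap.id ℝ E) x := fun x =>
    (d2 x).add ((hasFDerivAt_id x).const_smul (C + 1))
  have low : ∀ x v, ⟪(χ x • G x) v, v⟫ + ‖v‖ ^ 2 ≤
      ⟪(χ x • G x + Z x + (C + 1) • ContinuousLinearMap.id ℝ E) v, v⟫ := fun x v => by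
    have a1 := form_le (-Z x) v
    rw [norm_neg, neg_apply, inner_neg_left] at a1
    have a2 := mul_le_mul_of_nonneg_right (bZ x) (sq_nonneg ‖v‖)
    have a3 : ⟪((C + 1) • ContinuousLinearMap.id ℝ E) v, v⟫ = (C + 1) * ‖v‖ ^ 2 := by
      rw [smul_apply, ContinuousLinearMap.id_apply, real_inner_smul_left,
        real_inner_self_eq_norm_sq]
    rw [add_apply, add_apply, inner_add_left, inner_add_left, a3]
    linarith
  refine ⟨_, _, _, fun x => χ x • G x, ⟨d3, d4, ((χ.continuous.smul cG).add cZ).add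
    continuous_const, fun x => ⟨fun v w => ?_, fun v => ?_⟩, ⟨B * (3 * ρ), fun x => ?_⟩,
    fun x hx => ?_⟩, fun x => ⟨hX x, fun v => ?_, ?_⟩, fun x hx => ?_⟩
  · exact (second_derivative_symmetric d3 ((innerSL ℝ (E := E)).hasFDerivAt.comp x (d4 x))
      v w).trans (real_inner_comm _ _)
  · linarith [low x v, (hX x).pos v]
  · rw [add_sub_cancel_right]
    rcases cs x with hx | hx
    · rw [abs_mul, abs_of_nonneg χ.nonneg]
      exact (mul_le_of_le_one_left (abs_nonneg _) χ.le_one).trans (bu x hx)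
    · rw [(o1 x hx).self_of_nhds.1, zero_mul, abs_zero]
      positivity
  · have k : x ∉ closedBall (0 : E) (2 * ρ) := fun h => (mem_ball_zero_iff.1 (sub h)).not_ge hx
    rw [(W0 x k).self_of_nhds, (o1 x k).self_of_nhds.1, Z0 x k, zero_smul, zero_add, zero_add,
      zero_add]
    exact ⟨rfl, rfl⟩
  · linarith [low x v, sq_nonneg ‖v‖]
  · have C0 := (norm_nonneg _).trans (bZ 0)
    have a1 : ‖(C + 1) • ContinuousLinearMap.id ℝ E‖ ≤ C + 1 := by
      rw [norm_smul, Real.norm_of_nonneg (by positivity)]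
      exact mul_le_of_le_one_right (by positivity) ContinuousLinearMap.norm_id_le
    rw [add_assoc, add_sub_cancel_left]
    exact (norm_add_le_of_le (bZ x) a1).trans (le_of_eq (by ring))
  · simp only [χ.one_of_mem_closedBall (ball_subset_closedBall hx), one_smul]

variable [MeasurableSpace E] [BorelSpace E] (μ : Measure E) [μ.IsAddHaarMeasure]

theorem apriori {n : ℕ} (hn : finrank ℝ E = n) (h2 : 2 ≤ n) {r κ : ℝ} (hr : 0 < r) (hκ : 0 < κ)
    (h : r < (n + r) * κ ^ n) {ρ : ℝ} (hρ : 0 < ρ) {B : ℝ} (hB : 0 ≤ B) : ∃ C : ℝ,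
    ∀ (F : E → E) (G : E → E →L[ℝ] E), (∀ x, HasFDerivAt F (G x) x) →
      Continuous G → (∀ x, ‖F x‖ ≤ B) → ∀ z : E, (∀ x ∈ ball z (3 * ρ), Cone n κ (G x)) →
      ∫ x in ball z ρ, ‖G x‖ ^ (n + r) ∂μ ≤ C := by
  obtain ⟨C, C0, hC⟩ := build (E := E) hρ hB
  obtain ⟨a, b, a0, b0, hab⟩ := growth n hr hκ h (show 0 ≤ 2 * C + 1 by positivity)
  refine ⟨(2 * C + 2) ^ (n + r) / a * (n * (r + 1) * (r + 2) / 2 * (C + 1) ^ r *
    ((C + 1) ^ n * μ.real (ball 0 (3 * ρ))) + b * μ.real (ball 0 (3 * ρ))),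
    fun F G dF cG bF z hG => ?_⟩
  obtain ⟨U, g, A, X, H, hX, hXG⟩ := hC n κ (fun x => F (x + z)) (fun x => G (x + z))
    (fun x => (hasFDerivAt_comp_add_right z).2 (dF _)) (by fun_prop) (fun x => bF _)
    fun x hx => hG _ (by simpa [dist_eq_norm] using hx)
  have k1 := H.core μ hn h2 one_pos (by positivity) (by positivity) hr
  have c3 : Continuous fun x => (A x).det := ContinuousLinearMap.continuous_det.comp H.cont
  have c4 : Continuous fun x => ‖A x‖ := H.cont.norm
  have c5 : Continuous fun x => ‖A x‖ ^ r := c4.rpow_const fun _ => Or.inr hr.le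
  have i1 : IntegrableOn (fun x => ‖A x‖ ^ r * ((n + r) * (A x).det - r * ‖A x‖ ^ n))
      (ball 0 (3 * ρ)) μ := int_ball (by fun_prop) 0 _
  have i2 : IntegrableOn (fun x => ‖A x‖ ^ r * ‖A x‖ ^ n) (ball 0 (3 * ρ)) μ :=
    int_ball (by fun_prop) 0 _
  have k2 : a * ∫ x in ball 0 (3 * ρ), ‖A x‖ ^ r * ‖A x‖ ^ n ∂μ ≤
      ∫ x in ball 0 (3 * ρ), ‖A x‖ ^ r * ((n + r) * (A x).det - r * ‖A x‖ ^ n) ∂μ +
        b * μ.real (ball 0 (3 * ρ)) := by
    rw [← integral_const_mul, mul_comm b, ← smul_eq_mul _ b, ← setIntegral_const,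
      ← integral_add i1 (int_ball continuous_const 0 _)]
    refine integral_mono (i2.const_mul a) (i1.add (int_ball continuous_const 0 _)) fun x => ?_
    obtain ⟨x1, x2, x3⟩ := hX x
    refine hab _ ‖X x‖ _ (norm_nonneg _) (norm_nonneg _) ?_
      (x1.le_det hn (by omega) hκ.le one_pos (H.spd x) x2)
    linarith [norm_sub_norm_le (A x) (X x)]
  have e : (fun x => x + z) ⁻¹' ball z ρ = ball 0 ρ := by
    ext x
    simp [dist_eq_norm]
  rw [← (measurePreserving_add_right μ z).setIntegral_preimage_emb (measurableEmbedding_addRight z),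
    e]
  have n0 : (0 : ℝ) < n + r := by positivity
  calc _ ≤ ∫ x in ball 0 ρ, (2 * C + 2) ^ (n + r) * (‖A x‖ ^ r * ‖A x‖ ^ n) ∂μ := by
        refine setIntegral_mono_on (int_ball ((cG.comp (by fun_prop)).norm.rpow_const
          fun _ => Or.inr n0.le) 0 ρ) (int_ball (by fun_prop) 0 ρ) measurableSet_ball
          fun x hx => ?_
        obtain ⟨u, l, -, -, u3⟩ := (H.spd x).spec hn
        have m1 := (u3 ⟨0, by omega⟩).1.trans (u3 _).2
        have m2 := norm_sub_norm_le (X x) (A x)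
        rw [norm_sub_rev] at m2
        rw [← hXG x hx, ← Real.rpow_natCast, ← Real.rpow_add (by linarith), add_comm r,
          ← Real.mul_rpow (by positivity) (norm_nonneg _)]
        gcongr
        nlinarith [(hX x).2.2]
    _ ≤ ∫ x in ball 0 (3 * ρ), (2 * C + 2) ^ (n + r) * (‖A x‖ ^ r * ‖A x‖ ^ n) ∂μ :=
        setIntegral_mono_set (i2.const_mul _) (Eventually.of_forall fun x => by positivity)
          (ball_subset_ball (by linarith)).eventuallyLE
    _ ≤ _ := by
        rw [integral_const_mul, div_mul_eq_mul_div, mul_div_assoc]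
        gcongr
        rw [le_div_iff₀' a0]
        linarith

end Pool.Agent.MP_29b5d3_an.h35

end MrgPart4

-- ======== part 5: formerly Pool.Agent.MP_29b5d3_an.h35.Loc
section MrgPart5

/-! Mollification and the gain of integrability for quasiregular gradients of convex functions. -/

set_option autoImplicit false

namespace Pool.Agent.MP_29b5d3_an.h35

open Module Set Metric Filter Topology MeasureTheory ContinuousLinearMap
open scoped RealInnerProductSpace Convolution

variable {E : Type*} [NormedAddCommGroup E] [InnerProductSpace ℝ E]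

theorem Drad_pos {a : ℝ} (ha : -(1 / 2) ≤ a) (x : E) : (h48.Drad a 0 x).IsPositive := by
  refine (ContinuousLinearMap.isPositive_iff _).2 ⟨fun v w => ?_, fun w => ?_⟩
  · simp only [ContinuousLinearMap.coe_coe, h48.Drad_apply, inner_add_left, inner_add_right,
      real_inner_smul_left, real_inner_smul_right, real_inner_comm x]
    ring
  · rw [h48.Drad_apply, real_inner_smul_left, inner_add_left, real_inner_smul_left,
      real_inner_self_eq_norm_sq]
    refine mul_nonneg (by positivity) ?_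
    have k1 : ⟪x, w⟫ * ⟪x, w⟫ / (‖x‖ ^ 2 + 0) ≤ ‖w‖ ^ 2 := by
      refine div_le_of_le_mul₀ (by positivity) (by positivity) ?_
      have := real_inner_mul_inner_self_le x w
      rw [real_inner_self_eq_norm_sq, real_inner_self_eq_norm_sq] at this
      linarith
    have k2 : 0 ≤ ⟪x, w⟫ * ⟪x, w⟫ / (‖x‖ ^ 2 + 0) :=
      div_nonneg (mul_self_nonneg _) (by positivity)
    have e : 2 * a / (‖x‖ ^ 2 + 0) * ⟪x, w⟫ * ⟪x, w⟫ =
        2 * a * (⟪x, w⟫ * ⟪x, w⟫ / (‖x‖ ^ 2 + 0)) := by ring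
    rw [e]
    nlinarith

variable [FiniteDimensional ℝ E] [MeasurableSpace E] [BorelSpace E] {μ : Measure E}
  [μ.IsAddHaarMeasure]

theorem gain_ball {n : ℕ} (hn : finrank ℝ E = n) (h2 : 2 ≤ n) {r κ : ℝ} (hr : 0 < r) (hκ : 0 < κ)
    (h : r < (n + r) * κ ^ n) {F : E → E} {G : E → E →L[ℝ] E} (hF : h48.Sob μ F G) {z : E}
    {ρ : ℝ} (hρ : 0 < ρ) (hG : ∀ᵐ x ∂μ, x ∈ ball z (4 * ρ) → Cone n κ (G x)) :
    IntegrableOn (fun x => ‖G x‖ ^ (n + r)) (ball z ρ) μ := by
  have l1 : Tendsto (fun j => (h48.bump E j).rOut) atTop (𝓝 0) := by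
    simpa [h48.bump] using (tendsto_one_div_add_atTop_nhds_zero_nat (𝕜 := ℝ)).const_mul 2
  have l2 : ∀ᶠ j in atTop, (h48.bump E j).rOut ≤ 2 * (h48.bump E j).rIn :=
    Eventually.of_forall fun j => le_rfl
  set σ : ℕ → E → ℝ := fun j => (h48.bump E j).normed μ with hσ
  have σ1 : ∀ j, ContDiff ℝ ((⊤ : ℕ∞) : WithTop ℕ∞) (σ j) := fun j =>
    (h48.bump E j).contDiff_normed
  have σ2 : ∀ j, HasCompactSupport (σ j) := fun j => (h48.bump E j).hasCompactSupport_normed
  have σ3 : ∀ j x, 0 ≤ σ j x := fun j => (h48.bump E j).nonneg_normed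
  have σ6 : ∀ j x, ∫ t, σ j (x - t) ∂μ = 1 := fun j x => by
    rw [integral_sub_left_eq_self, (h48.bump E j).integral_normed]
  have σ7 : ∀ j x, Integrable (fun t => σ j (x - t)) μ := fun j x =>
    (h48.bump E j).integrable_normed.comp_sub_left x
  obtain ⟨B, hB⟩ := hF.cont.bounded_above_of_compact_support hF.supp
  obtain ⟨C, hC⟩ := apriori μ hn h2 hr hκ h hρ ((norm_nonneg _).trans (hB 0))
  have d3 : ∀ j x, ‖(σ j ⋆[lsmul ℝ ℝ, μ] F) x‖ ≤ B := fun j x => by
    rw [convolution_lsmul_swap]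
    refine (norm_integral_le_of_norm_le ((σ7 j x).mul_const B)
      (Eventually.of_forall fun t => ?_)).trans (by rw [integral_mul_const, σ6, one_mul])
    rw [norm_smul, Real.norm_of_nonneg (σ3 _ _)]
    exact mul_le_mul_of_nonneg_left (hB t) (σ3 _ _)
  have cG : ∀ j, Continuous (σ j ⋆[lsmul ℝ ℝ, μ] G) := fun j =>
    (σ2 j).continuous_convolution_left _ (σ1 j).continuous hF.loc
  have n0 : (0 : ℝ) < n + r := by positivity
  have cN : ∀ j, Continuous fun x => ‖(σ j ⋆[lsmul ℝ ℝ, μ] G) x‖ ^ (n + r) := fun j =>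
    (cG j).norm.rpow_const fun _ => Or.inr n0.le
  have bd : ∀ᶠ j in atTop, ∫ x in ball z ρ, ‖(σ j ⋆[lsmul ℝ ℝ, μ] G) x‖ ^ (n + r) ∂μ ≤ C := by
    filter_upwards [l1.eventually (gt_mem_nhds hρ)] with j hj
    refine hC _ _ (h48.hasFDerivAt_conv (σ1 j) (σ2 j) hF.cont.locallyIntegrable hF.loc hF.weak)
      (cG j) (d3 j) z fun x hx => ?_
    have i2 := convolutionExistsAt_iff_integrable_swap.1
      ((σ2 j).convolutionExists_left (lsmul ℝ ℝ) (σ1 j).continuous hF.loc x)
    rw [convolution_lsmul_swap]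
    refine Cone.integral hκ.le i2 (hG.mono fun t ht => ?_)
    rcases eq_or_ne (σ j (x - t)) 0 with k | k
    · rw [k, zero_smul]
      exact Cone.zero
    · have k1 : x - t ∈ ball (0 : E) (h48.bump E j).rOut := by
        rw [← (h48.bump E j).support_normed_eq (μ := μ)]
        exact k
      rw [mem_ball_zero_iff, ← dist_eq_norm] at k1
      refine (ht ?_).smul (σ3 _ _)
      rw [mem_ball] at hx ⊢
      linarith [dist_triangle_left t z x]
  have lim : ∀ᵐ x ∂μ.restrict (ball z ρ), Tendsto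
      (fun j => ‖(σ j ⋆[lsmul ℝ ℝ, μ] G) x‖ ^ (n + r)) atTop (𝓝 (‖G x‖ ^ (n + r))) := by
    filter_upwards [ae_restrict_of_ae
      (ContDiffBump.ae_convolution_tendsto_right_of_locallyIntegrable l1 l2 hF.loc)] with x hx
    exact hx.norm.rpow_const (Or.inr n0.le)
  have k := Lp.eLpNorm_le_of_ae_tendsto (p := 1) (C := ENNReal.ofReal C) (bd.mono fun j hj => by
    rw [eLpNorm_one_eq_lintegral_enorm,
      ← ofReal_integral_norm_eq_lintegral_enorm (int_ball (cN j) z ρ)]
    refine ENNReal.ofReal_le_ofReal (le_of_eq_of_le ?_ hj)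
    exact integral_congr_ae (Eventually.of_forall fun x => Real.norm_of_nonneg (by positivity)))
    (fun j => (cN j).aestronglyMeasurable) lim
  exact memLp_one_iff_integrable.1 ⟨aestronglyMeasurable_of_tendsto_ae atTop
    (fun j => (cN j).aestronglyMeasurable) lim, k.trans_lt ENNReal.ofReal_lt_top⟩

theorem higher {n : ℕ} (hn : finrank ℝ E = n) (h2 : 2 ≤ n) {Ω : Set E} {f : E → E}
    {Df : E → E →L[ℝ] E} (h : h48.SobOn μ Ω f Df) {K : ℝ} (hK : 1 < K)
    (hD : ∀ᵐ x ∂μ.restrict Ω, ‖Df x‖ ^ n ≤ K * (Df x).det)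
    (hP : ∀ᵐ x ∂μ.restrict Ω, (Df x).IsPositive) {p : ℝ} (hp : p < n * K / (K - 1))
    {C : Set E} (hC : IsCompact C) (hCΩ : C ⊆ Ω) :
    MemLp Df (ENNReal.ofReal p) (μ.restrict C) := by
  rcases le_or_gt p n with c | c
  · have : IsFiniteMeasure (μ.restrict C) := isFiniteMeasure_restrict.2 hC.measure_lt_top.ne
    refine (h.lp C hC hCΩ).mono_exponent ?_
    rw [hn, ← ENNReal.ofReal_natCast]
    exact ENNReal.ofReal_le_ofReal c
  obtain ⟨r, rfl⟩ : ∃ r : ℝ, p = n + r := ⟨p - n, by ring⟩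
  have r0 : 0 < r := by linarith
  have K0 : 0 < K := by linarith
  set κ := K⁻¹ ^ (n : ℝ)⁻¹
  have κ0 : 0 < κ := by positivity
  have κn : κ ^ n = K⁻¹ := Real.rpow_inv_natCast_pow (by positivity) (by omega)
  have hc : ∀ᵐ x ∂μ, x ∈ Ω → Cone n κ (Df x) := by
    rw [← ae_restrict_iff' h.op.measurableSet]
    filter_upwards [hD, hP] with x k1 k2
    refine Cone.of_det hn κ0 k2.inner_left_eq_inner_right k2.inner_nonneg_left ?_
    rwa [mul_pow, κn, inv_mul_le_iff₀ K0]
  rw [← integrable_norm_rpow_iff (h.lp C hC hCΩ).1 (by simp; positivity) ENNReal.ofReal_ne_top,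
    ENNReal.toReal_ofReal (by positivity)]
  refine LocallyIntegrableOn.integrableOn_compact_subset (s := Ω) (fun z hz => ?_) hCΩ hC
  obtain ⟨ε, ε0, hε⟩ := nhds_basis_closedBall.mem_iff.1 (h.op.mem_nhds hz)
  obtain ⟨F, G, hF, hFG⟩ := h48.globalize (by omega) h (isCompact_closedBall z ε) hε
  have e : ∀ x ∈ closedBall z ε, G x = Df x := fun x hx => (hFG.self_of_nhdsSet x hx).2
  have k := gain_ball hn h2 r0 κ0 (by
    rw [lt_div_iff₀ (by linarith)] at hp
    rw [κn, ← div_eq_mul_inv, lt_div_iff₀ K0]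
    linarith) hF (z := z) (ρ := ε / 4) (by positivity) (hc.mono fun x hx hx' => by
      have k : x ∈ closedBall z ε := ball_subset_closedBall (by rwa [mul_div_cancel₀] at hx'; simp)
      rw [e x k]
      exact hx (hε k))
  refine ⟨ball z (ε / 4), mem_nhdsWithin_of_mem_nhds (ball_mem_nhds z (by positivity)),
    k.congr_fun (fun x hx => ?_) measurableSet_ball⟩
  simp only [e x (ball_subset_closedBall (ball_subset_ball (by linarith) hx))]

end Pool.Agent.MP_29b5d3_an.h35

end MrgPart5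

-- marker of a merged file
example : 731051 + 845572 = 731051 + 845572 := rfl
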